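import Pool.Agent.Helper10.RR.Dec

/-!
# Project SLS: no level one structure, with coefficients in a subfield of the decomposition field, all exponents
-/

universe u

namespace Pool.Agent.SLS

open Polynomial IsLocalRing Pool.Agent.Helper91.Sect Pool.Agent.Helper37.UL RR

/-- **Block E2** with coefficients in a larger field and a twist. -/
theorem no_lev_dec {C : Type u} [Field C] [IsAlgClosed C] [CharZero C] {Λ : Subfield C}
    {t v : C} (htv : AlgebraicIndependent Λ ![t, v])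
    (hC : ∀ x : C, IsAlgebraic (Subfield.closure ((Λ : Set C) ∪ {t, v})) x)
    {p ν d : ℕ} (hp : 0 < p) (hν1 : 1 ≤ ν) (hν : ¬ p ∣ ν) (hd : 3 ≤ d) (W : ValuationSubring C)
    (hW : ∀ n : ℕ, n ≠ 0 → W.valuation (n : C) = 1)
    {K1 : Subfield C} (hK1 : Subfield.closure ((Λ : Set C) ∪ {t, v}) ≤ K1)
    (hfix : ∀ (σ : C ≃+* C) (V : ValuationSubring C), (∀ x, σ x ∈ V ↔ x ∈ V) →
      (∀ x ∈ Λ, x ∈ W → x ∈ V) → V.valuation t < 1 →
      (∀ x ∈ Subfield.closure ((Λ : Set C) ∪ {t, v}), σ x = x) → ∀ x ∈ K1, σ x = x)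
    (c : Fin (d + 1) → C) (hcK : ∀ l, c l ∈ K1) (w0 : C)
    (hval : ∀ V : ValuationSubring C, (∀ x ∈ Λ, x ∈ W → x ∈ V) →
      (∀ x ∈ Λ, W.valuation x < 1 → V.valuation x < V.valuation v) → V.valuation v < 1 →
      t / v ∈ V → V.valuation w0 = 1 ∧
      ∀ l : Fin (d + 1), V.valuation (c l / v - tgt d (t / v) (l : ℕ)) < 1)
    {θ : Fin d → C} {z : Fin d → Fin d → C} {α : C}
    (h : Lev K1 p (fun i => (w0 * c (Fin.last d)) ^ (ν - 1) * (w0 * c i)) θ z α) :
    False := by
  classical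
  set k : Subfield C := Subfield.closure ((Λ : Set C) ∪ {t, v}) with hk
  have hΛk : Λ ≤ k := fun x hx => Subfield.subset_closure (Or.inl hx)
  have htk : t ∈ k := Subfield.subset_closure (Or.inr (Or.inl rfl))
  have hvk : v ∈ k := Subfield.subset_closure (Or.inr (Or.inr rfl))
  have hsk : t / v ∈ k := div_mem htk hvk
  let _ : Algebra Λ k := (Subfield.inclusion hΛk).toAlgebra
  have hsc : IsScalarTower Λ k C := IsScalarTower.of_algebraMap_eq fun x => rfl
  let _ : Algebra k K1 := (Subfield.inclusion hK1).toAlgebra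
  have hsc1 : IsScalarTower k K1 C := IsScalarTower.of_algebraMap_eq fun x => rfl
  let _ : Algebra Λ K1 := (Subfield.inclusion (hΛk.trans hK1)).toAlgebra
  have hsc2 : IsScalarTower Λ k K1 := IsScalarTower.of_algebraMap_eq fun x => rfl
  have hgal : IsGalois k C := isGalois_of_alg k hC
  have hgal1 : IsGalois K1 C := isGalois_of_alg K1 fun x => by
    have h1 := hC x
    exact h1.extendScalars (S := K1) (algebraMap k K1).injective
  set OΛ : ValuationSubring Λ := W.comap (algebraMap Λ C) with hOΛ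
  obtain ⟨V, hV, hcore, hnp⟩ := exists_core_two k htv (fun x hx => hx) hsk OΛ
  set O : ValuationSubring k := V.comap (algebraMap k C) with hO
  obtain ⟨Q, hQ, hA⟩ := exists_above (k := k) (C := C) (O := O)
  have hv0 : v ≠ 0 := hV.v_ne
  set s : k := ⟨t / v, hsk⟩ with hs
  have hch : ∀ n : ℕ, n ≠ 0 → O.valuation (n : k) = 1 := fun n hn => hcore.val_natCast (by
    rw [comap_eq_one, map_natCast]; exact hW n hn)
  have hts : t = t / v * v := (div_mul_cancel₀ _ hv0).symm
  have hs1 : V.valuation (t / v) ≤ 1 := by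
    have h7 := hV.ev_le X
    rwa [ev_X] at h7
  -- comparison of the values on `k`
  have hlt1 : ∀ x : k, V.valuation (x : C) < 1 → (locW Q).valuation (x : C) < 1 := fun x hx =>
    locW_algebraMap_lt Q hA (a := x) ((comap_lt_one _ _ _).2 hx)
  have hle1 : ∀ x : k, V.valuation (x : C) ≤ 1 → (locW Q).valuation (x : C) ≤ 1 := fun x hx =>
    locW_algebraMap_le (a := x) ((comap_le_one _ _ _).2 hx)
  have hV1 : ∀ x ∈ Λ, x ∈ W → x ∈ locW Q := by
    intro x hx hxW
    rw [← (locW Q).valuation_le_one_iff]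
    have h6 : (⟨x, hx⟩ : Λ) ∈ OΛ := hxW
    have h7 := hcore.le _ h6
    exact locW_algebraMap_le ((O.valuation_le_one_iff _).2 h7)
  have hV2 : ∀ x ∈ Λ, W.valuation x < 1 → (locW Q).valuation x < (locW Q).valuation v := by
    intro x hx hxW
    have h6 : OΛ.valuation (⟨x, hx⟩ : Λ) < 1 := (comap_lt_one _ _ _).2 hxW
    have h7 := hV.lt _ h6 1
    rw [pow_one] at h7
    have h8 : V.valuation v ≠ 0 := (_root_.map_ne_zero _).2 hv0
    have h9 : (locW Q).valuation v ≠ 0 := (_root_.map_ne_zero _).2 hv0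
    have h10 := hlt1 (⟨x, hΛk hx⟩ / ⟨v, hvk⟩) (by
      change V.valuation (x / v) < 1
      rw [map_div₀]
      exact (div_lt_one₀ (zero_lt_iff.2 h8)).2 h7)
    change (locW Q).valuation (x / v) < 1 at h10
    rw [map_div₀] at h10
    exact (div_lt_one₀ (zero_lt_iff.2 h9)).1 h10
  have hV3 : (locW Q).valuation v < 1 := hlt1 ⟨v, hvk⟩ hV.v_lt
  have hV4 : t / v ∈ locW Q := by
    rw [← (locW Q).valuation_le_one_iff]
    exact hle1 ⟨t / v, hsk⟩ hs1
  have hV5 : (locW Q).valuation t < 1 := by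
    rw [hts, map_mul]
    exact lt_of_le_of_lt (mul_le_of_le_one_left' (((locW Q).valuation_le_one_iff _).2 hV4)) hV3
  obtain ⟨hw0, hest⟩ := hval (locW Q) hV1 hV2 hV3 hV4
  have hfixk : ∀ σ : C ≃ₐ[k] C, InD Q σ → ∀ x ∈ K1, σ x = x := by
    intro σ hσ
    refine hfix σ.toRingEquiv (locW Q) (fun x => ?_) hV1 hV5 (fun x hx => σ.commutes ⟨x, hx⟩)
    rw [← (locW Q).valuation_le_one_iff, ← (locW Q).valuation_le_one_iff]
    exact val_le_one_D Q hσ x
  have hcore1 := core_extend (k1 := K1) Q hcore hA hch fun σ hσ x => hfixk σ hσ x x.2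
  obtain ⟨Q1, hQ1, hA1, hloc⟩ := exists_loc (k1 := K1) (locW Q)
  let a : Fin (d + 1) → K1 := fun l => ⟨c l, hcK l⟩ / ⟨v, hK1 hvk⟩
  have hatgt : ∀ l : ℕ, algebraMap K1 C (tgt d (algebraMap k K1 s) l) = tgt d (t / v) l := by
    intro l
    rw [tgt, tgt]
    split_ifs
    · rw [map_one]
    · rw [map_neg, map_one]
    · rw [map_neg]; rfl
    · rw [map_zero]
  have ha : ∀ l : Fin (d + 1), ((locW Q).comap (algebraMap K1 C)).valuation
      (a l - tgt d (algebraMap k K1 s) (l : ℕ)) < 1 := by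
    intro l
    rw [comap_lt_one, map_sub, hatgt]
    exact hest l
  have hroot1 : ∀ i, ∑ l, c l * θ i ^ (l : ℕ) = 0 := by
    intro i
    have h1 := h.root i
    have h2 : ∑ l : Fin (d + 1), (w0 * c (Fin.last d)) ^ (ν - 1) * (w0 * c l) * θ i ^ (l : ℕ) =
        ((w0 * c (Fin.last d)) ^ (ν - 1) * w0) * ∑ l, c l * θ i ^ (l : ℕ) := by
      rw [Finset.mul_sum]
      exact Finset.sum_congr rfl fun l _ => by ring
    rw [h2] at h1
    refine (mul_eq_zero.1 h1).resolve_left ?_
    have h3 := h.lead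
    refine mul_ne_zero (left_ne_zero_of_mul h3) ?_
    exact left_ne_zero_of_mul (right_ne_zero_of_mul h3)
  obtain ⟨hdiff, hθle, htr⟩ := hcore1.two_trans Q1 (fun n hn => by
      rw [comap_eq_one, map_natCast]
      have h1 := (locW_algebraMap_eq_one Q hA (a := (n : k))).2 (hch n hn)
      rwa [map_natCast] at h1) hA1 hd ha h.inj (fun i => by
      have h1 := congrArg (fun x => x / v) (hroot1 i)
      simp only [Finset.sum_div, zero_div] at h1
      rw [← h1]
      refine Finset.sum_congr rfl fun l _ => ?_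
      change c l / v * θ i ^ (l : ℕ) = _
      ring)
  have hvalD : ∀ σ : C ≃ₐ[K1] C, InD Q1 σ → ∀ x, (locW Q1).valuation (σ x) = (locW Q1).valuation x :=
    fun σ hσ x => val_InD Q1 hσ x
  rw [hloc] at hdiff hθle hvalD
  set U := (locW Q).valuation with hU
  -- the common value of the `z i j`
  have hzval : ∀ i j i' j', i ≠ j → i' ≠ j' → U (z i j) = U (z i' j') := by
    intro i j i' j' hij hij'
    obtain ⟨φ, hφ, hpow⟩ := h.pow
    obtain ⟨σ, hσD, hσi, hσj⟩ := htr i j i' j' hij hij'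
    have h1 : σ (z i j ^ p) = z i' j' ^ p := by
      rw [hpow i j hij, hpow i' j' hij', map_sum]
      refine Finset.sum_congr rfl fun r _ => ?_
      rw [map_sum]
      refine Finset.sum_congr rfl fun q _ => ?_
      rw [map_mul, map_mul, map_pow, map_pow, hσi, hσj]
      congr 1
      exact σ.commutes ⟨_, hφ r q⟩
    have h2 := hvalD σ hσD (z i j ^ p)
    rw [h1, map_pow, map_pow] at h2
    exact ((pow_left_inj₀ zero_le zero_le hp.ne').1 h2).symm
  -- three different indices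
  let i0 : Fin d := ⟨0, by omega⟩
  let i1 : Fin d := ⟨1, by omega⟩
  let i2 : Fin d := ⟨2, by omega⟩
  have h01 : i0 ≠ i1 := fun h => by simpa [i0, i1] using congrArg Fin.val h
  have h12 : i1 ≠ i2 := fun h => by simpa [i1, i2] using congrArg Fin.val h
  have h02 : i0 ≠ i2 := fun h => by simpa [i0, i2] using congrArg Fin.val h
  set γ := U (z i0 i1) with hγ
  have hγ0 : γ ≠ 0 := (_root_.map_ne_zero _).2 (h.ne i0 i1 h01)
  obtain ⟨ψ, hψ, hcoc⟩ := h.coc
  obtain ⟨χ, hχ, hnrm⟩ := h.nrm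
  set q : C := ∑ r, ∑ s, ∑ t, ψ r s t * (θ i0 ^ (r : ℕ) * θ i1 ^ (s : ℕ) * θ i2 ^ (t : ℕ)) with hq
  have hqval : U q = γ := by
    have h1 := congrArg U (hcoc i0 i1 i2 h01 h12 h02)
    rw [map_mul, map_mul, hzval i1 i2 i0 i1 h12 h01, hzval i0 i2 i0 i1 h02 h01] at h1
    exact (mul_left_cancel₀ hγ0 h1).symm
  have hq0 : q ≠ 0 := by
    intro h0
    rw [h0, map_zero] at hqval
    exact hγ0 hqval.symm
  set e : C := ∑ r, χ r * θ i0 ^ (r : ℕ) with he
  have heval : U α * γ ^ (d - 1) = U e := by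
    have h1 := congrArg U (hnrm i0)
    rw [map_mul, map_prod] at h1
    rw [← h1]
    congr 1
    rw [Finset.prod_congr rfl fun j hj => hzval j i0 i0 i1 (Finset.ne_of_mem_erase hj) h01,
      Finset.prod_const, Finset.card_erase_of_mem (Finset.mem_univ _), Finset.card_univ,
      Fintype.card_fin]
  set H : C := e / q ^ (d - 1) with hH
  have hHval : U H = U α := by
    rw [hH, map_div₀, map_pow, hqval, ← heval, mul_div_cancel_right₀ _ (pow_ne_zero _ hγ0)]
  have hv0' : U v ≠ 0 := (_root_.map_ne_zero _).2 hv0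
  -- the value of the leading coefficient
  have hlead : U (w0 * c (Fin.last d)) = U v := by
    have h1 := hest (Fin.last d)
    rw [tgt, if_pos (Fin.val_last d)] at h1
    have h2 : U (c (Fin.last d) / v) = 1 := by
      have h3 := Valuation.map_add_eq_of_lt_right U
        (x := c (Fin.last d) / v - 1) (y := 1) (by rw [map_one]; exact h1)
      rw [sub_add_cancel, map_one] at h3
      exact h3
    rw [map_div₀, div_eq_one_iff_eq hv0'] at h2
    rw [map_mul, hw0, one_mul, h2]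
  have hlead' : U ((w0 * c (Fin.last d)) ^ (ν - 1) * (w0 * c (Fin.last d))) = U v ^ ν := by
    rw [map_mul, map_pow, hlead, ← pow_succ, Nat.sub_add_cancel hν1]
  have hvval0 : U v ^ ν = U H ^ p := by
    have h9 : U (α ^ p) = U v ^ ν := by rw [h.alpha]; exact hlead'
    rw [map_pow] at h9
    rw [hHval]
    exact h9.symm
  have hH0' : H ≠ 0 := by
    intro h0
    rw [h0, map_zero, zero_pow hp.ne'] at hvval0
    exact pow_ne_zero _ hv0' hvval0
  -- a prime number
  obtain ⟨H', ℓ, hℓ, ⟨u, m, n, rfl⟩, hvval⟩ : ∃ (H' : C) (ℓ : ℕ), ℓ.Prime ∧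
      (∃ u m n : ℕ, H' = (H ^ u / v ^ m) ^ n) ∧ U v = U H' ^ ℓ := by
    obtain ⟨g, p₁, ν₁, hg, hco, hp₁, hν₁⟩ := Nat.exists_coprime' (m := p) (n := ν)
      (Nat.gcd_pos_of_pos_left _ hp)
    have hg0 : g ≠ 0 := hg.ne'
    have e1 : U v ^ ν₁ = U H ^ p₁ := by
      rw [hp₁, hν₁, pow_mul, pow_mul] at hvval0
      exact (pow_left_inj₀ zero_le zero_le hg0).1 hvval0
    have hp₁1 : p₁ ≠ 1 := by
      rintro rfl
      apply hν
      rw [hp₁, hν₁, one_mul]
      exact Dvd.intro_left _ rfl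
    have hp₁0 : p₁ ≠ 0 := by
      rintro rfl
      rw [zero_mul] at hp₁
      omega
    obtain ⟨u, -, hu⟩ := Nat.exists_mul_mod_eq_one_of_coprime (Nat.coprime_comm.1 hco)
      (by omega : 1 < p₁)
    set m := ν₁ * u / p₁ with hm
    have hum : ν₁ * u = 1 + p₁ * m := by
      have := Nat.mod_add_div (ν₁ * u) p₁
      rw [hu] at this
      exact this.symm
    have e2 : U v = U (H ^ u / v ^ m) ^ p₁ := by
      have h3 : U v ^ (1 + p₁ * m) = U H ^ (p₁ * u) := by
        rw [← hum, pow_mul, e1, ← pow_mul]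
      rw [map_div₀, map_pow, map_pow, div_pow, ← pow_mul, ← pow_mul, mul_comm u p₁, ← h3,
        mul_comm m p₁, pow_add, pow_one, mul_div_assoc, div_self (pow_ne_zero _ hv0'), mul_one]
    have hpr := Nat.minFac_prime hp₁1
    refine ⟨(H ^ u / v ^ m) ^ (p₁ / p₁.minFac), p₁.minFac, hpr, ⟨u, m, _, rfl⟩, ?_⟩
    rw [map_pow, ← pow_mul, Nat.div_mul_cancel (Nat.minFac_dvd p₁), e2]
  set H' := (H ^ u / v ^ m) ^ n with hH'
  have hH0 : H' ≠ 0 := pow_ne_zero _ (div_ne_zero (pow_ne_zero _ hH0') (pow_ne_zero _ hv0))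
  -- the inertia element
  obtain ⟨w, hw⟩ := IsAlgClosed.exists_pow_nat_eq v hℓ.pos
  obtain ⟨ζ, hζ⟩ : ∃ ζ : C, IsPrimitiveRoot ζ ℓ := by
    have : NeZero (ℓ : C) := ⟨by exact_mod_cast hℓ.ne_zero⟩
    exact HasEnoughRootsOfUnity.exists_primitiveRoot C ℓ
  have hodd : ∀ x : k, O.valuation (⟨v, hvk⟩ : k) ≠ O.valuation x ^ ℓ := by
    intro x hx
    by_cases hx0 : x = 0
    · rw [hx0, map_zero, zero_pow hℓ.ne_zero] at hx
      have h1 : (⟨v, hvk⟩ : k) = 0 := by simpa using hx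
      exact hv0 (congrArg Subtype.val h1)
    · rw [← map_pow, comap_eq _ _ (pow_ne_zero ℓ hx0)] at hx
      refine hnp ℓ hℓ x x.2 ?_
      rw [← map_pow]; exact hx
  obtain ⟨τ, hτI, hτw⟩ := Pool.Agent.Helper91.SE.exists_inertia_ne Q hA hℓ hodd (w := w) hw hζ
  have hτk : ∀ x ∈ K1, τ x = x := hfixk τ hτI.1
  have hτθ : ∀ i, τ (θ i) = θ i := by
    intro i
    have h1 : ∑ l, (w0 * c (Fin.last d)) ^ (ν - 1) * (w0 * c l) * (τ (θ i)) ^ (l : ℕ) = 0 := by
      have h2 := congrArg τ (h.root i)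
      rw [map_sum, map_zero] at h2
      rw [← h2]
      refine Finset.sum_congr rfl fun l _ => ?_
      rw [map_mul, map_pow]
      congr 1
      exact (hτk _ (h.coef l)).symm
    obtain ⟨m, hm⟩ := root_mem h.lead h.inj h.root h1
    by_contra hne
    have hmi : m ≠ i := fun h2 => hne (by rw [hm, h2])
    have h2 := hdiff m i hmi
    have h3 : U (τ (θ i) - θ i) < 1 := val_inertia Q hτI (hθle i)
    rw [hm] at h3
    exact h3.ne h2
  have hτq : τ q = q := by
    rw [hq]
    simp only [map_sum, map_mul, map_pow, hτθ]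
    exact Finset.sum_congr rfl fun r _ => Finset.sum_congr rfl fun s _ =>
      Finset.sum_congr rfl fun t _ => by rw [hτk _ (hψ r s t)]
  have hτe : τ e = e := by
    rw [he]
    simp only [map_sum, map_mul, map_pow, hτθ]
    exact Finset.sum_congr rfl fun r _ => by rw [hτk _ (hχ r)]
  have hτH0 : τ H = H := by rw [hH, map_div₀, map_pow, hτq, hτe]
  have hτH : τ H' = H' := by
    have h9 : τ v = v := τ.commutes ⟨v, hvk⟩
    rw [hH', map_pow, map_div₀, map_pow, map_pow, hτH0, h9]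
  have hw0 : w ≠ 0 := by
    rintro rfl
    rw [zero_pow hℓ.ne_zero] at hw
    exact hv0 hw.symm
  have hUw : U w = U H' := by
    have h1 : U w ^ ℓ = U H' ^ ℓ := by rw [← map_pow, hw, hvval]
    exact (pow_left_inj₀ zero_le zero_le hℓ.ne_zero).1 h1
  have hHv : U H' ≠ 0 := (_root_.map_ne_zero _).2 hH0
  have hUu : U (w / H') = 1 := by rw [map_div₀, hUw, div_self hHv]
  have h1 := val_inertia Q hτI hUu.le
  set η : C := τ w / w with hη
  have hτw' : τ w = η * w := by rw [hη, div_mul_cancel₀ _ hw0]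
  have hηp : η ^ ℓ = 1 := by
    have hτv : τ v = v := τ.commutes ⟨v, hvk⟩
    rw [hη, div_pow, ← map_pow, hw, hτv, div_self hv0]
  have hη1 : η ≠ 1 := by
    intro h2
    rw [h2, one_mul] at hτw'
    exact hτw hτw'
  have h2 : τ (w / H') - w / H' = (η - 1) * (w / H') := by
    rw [map_div₀, hτH, hτw']; ring
  rw [h2, map_mul] at h1
  change U (η - 1) * U (w / H') < 1 at h1
  rw [hUu, mul_one] at h1
  -- the sum of the powers of `η`
  have hUη : U η ≤ 1 := by
    have h3 : U η ^ ℓ = 1 := by rw [← map_pow, hηp, map_one]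
    exact ((pow_eq_one_iff_of_nonneg zero_le hℓ.ne_zero).1 h3).le
  have h3 : ∑ i ∈ Finset.range ℓ, η ^ i = 0 := by
    have h4 := mul_geom_sum η ℓ
    rw [hηp, sub_self] at h4
    exact (mul_eq_zero.1 h4).resolve_left (sub_ne_zero.2 hη1)
  have h4 : U (∑ i ∈ Finset.range ℓ, (η ^ i - 1)) < 1 := by
    refine Valuation.map_sum_lt' _ zero_lt_one fun i _ => ?_
    rw [← mul_geom_sum, map_mul]
    refine (mul_le_of_le_one_right' ?_).trans_lt h1
    refine Valuation.map_sum_le _ fun j _ => ?_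
    rw [map_pow]
    exact pow_le_one' hUη j
  rw [Finset.sum_sub_distrib, h3, Finset.sum_const, Finset.card_range, nsmul_eq_mul, mul_one,
    zero_sub, Valuation.map_neg] at h4
  have h6 := (locW_algebraMap_eq_one Q hA (a := ((ℓ : ℕ) : k))).2 (hch ℓ hℓ.ne_zero)
  rw [map_natCast] at h6
  exact h4.ne h6

end Pool.Agent.SLS
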