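import Pool.Agent.Helper10.RR.GenW
import Pool.Agent.Helper10.SLS.Dec

/-!
# Project SLS: no level one structure, in an arbitrary algebraically closed field, all exponents
-/

universe u

namespace Pool.Agent.SLS

open Polynomial IsLocalRing Pool.Agent.Helper91.Sect Pool.Agent.Helper37.UL TH RR

/-- **Block E2** in an arbitrary algebraically closed field. -/
theorem no_lev_gen {S : Type u} [Field S] [IsAlgClosed S] [CharZero S] {A : Subfield S}
    {τ : Fin 2 → S} (hτ : AlgebraicIndependent A τ) {p ν d : ℕ} (hp : 0 < p) (hν1 : 1 ≤ ν)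
    (hν : ¬ p ∣ ν) (hd : 3 ≤ d)
    (c : Fin (d + 1) → S) {w0 : S} (W : ValuationSubring S)
    (hW : ∀ n : ℕ, n ≠ 0 → W.valuation (n : S) = 1)
    {kc : Subfield S} (hkc : kc ≤ A) (hkcW : ∀ x ∈ kc, x ∈ W) {q : S} (hq : SplitAt kc (τ 0) q)
    (hw0 : w0 ∈ Subfield.closure ((gen A τ : Set S) ∪ {q}))
    (hc : ∀ i, c i ∈ Subfield.closure ((gen A τ : Set S) ∪ {q}))
    (hval : ∀ V : ValuationSubring S, (∀ x ∈ A, x ∈ W → x ∈ V) →
      (∀ x ∈ A, W.valuation x < 1 → V.valuation x < V.valuation (τ 1)) → V.valuation (τ 1) < 1 →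
      τ 0 / τ 1 ∈ V → V.valuation w0 = 1 ∧
      ∀ l : Fin (d + 1), V.valuation (c l / τ 1 - tgt d (τ 0 / τ 1) (l : ℕ)) < 1)
    {θ : Fin d → S} {z : Fin d → Fin d → S} {α : S}
    (h : Lev (Subfield.closure ((gen A τ : Set S) ∪ {q})) p
      (fun i => (w0 * c (Fin.last d)) ^ (ν - 1) * (w0 * c i)) θ z α) :
    False := by
  classical
  set t : S := τ 0 with ht
  set v : S := τ 1 with hv
  have hτe : τ = ![t, v] := by
    funext i
    fin_cases i <;> rfl
  have hτr : Set.range τ = {t, v} := by
    rw [hτe, Matrix.range_cons, Matrix.range_cons, Matrix.range_empty, Set.union_empty,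
      Set.singleton_union]
  set K : Subfield S := gen A τ with hK
  have hKc : K = Subfield.closure ((A : Set S) ∪ {t, v}) := by rw [hK, gen, hτr]
  have hAK : A ≤ K := le_gen
  have htK : t ∈ K := gen_mem 0
  have hvK : v ∈ K := gen_mem 1
  obtain ⟨t', ht'⟩ := exists_inc_of_mem htK
  obtain ⟨v', hv'⟩ := exists_inc_of_mem hvK
  have hind : AlgebraicIndependent (down K A) ![t', v'] := by
    rw [algebraicIndependent_iff]
    intro P hP
    let f : down K A →+* A :=
      ((inc K).comp (down K A).subtype).codRestrict A.toSubring (fun x => x.2)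
    have h1 : MvPolynomial.aeval τ (MvPolynomial.map f P) = 0 := by
      have h2 := congrArg (inc K) hP
      rw [map_zero, MvPolynomial.aeval_def, MvPolynomial.hom_eval₂] at h2
      rw [MvPolynomial.aeval_def, MvPolynomial.eval₂_map, ← h2]
      congr 1
      funext i
      fin_cases i
      · exact ht'.symm
      · exact hv'.symm
    have h2 := (algebraicIndependent_iff.1 hτ) _ h1
    rwa [map_eq_zero_iff _ (MvPolynomial.map_injective f f.injective)] at h2
  have himg : inc K '' ((down K A : Set _) ∪ {t', v'}) = (A : Set S) ∪ {t, v} := by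
    rw [Set.image_union, Set.image_pair, ht', hv']
    congr 1
    ext x
    constructor
    · rintro ⟨y, hy, rfl⟩
      exact hy
    · intro hx
      exact ⟨toDown hAK ⟨x, hx⟩, (toDown hAK ⟨x, hx⟩).2, rfl⟩
  set K' : Subfield (algebraicClosure K S) := Subfield.closure ((down K A : Set _) ∪ {t', v'}) with hK'
  have hlift : ∀ x ∈ K, ∃ y ∈ K', inc K y = x := by
    intro x hx
    rw [hKc] at hx
    exact exists_of_mem_closure himg hx
  have hK'K : ∀ y ∈ K', inc K y ∈ K := by
    intro y hy
    have h1 : inc K y ∈ K'.map (inc K) := ⟨y, hy, rfl⟩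
    rw [hK', RingHom.map_field_closure, himg, ← hKc] at h1
    exact h1
  have hC : ∀ x : algebraicClosure K S, IsAlgebraic K' x := isAlgebraic_down hlift
  have hkcK : kc ≤ K := hkc.trans hAK
  have hqalg : IsAlgebraic K q := hq.isAlgebraic hkcK htK
  obtain ⟨q', hq'⟩ := exists_inc hqalg
  set K1 : Subfield S := Subfield.closure ((K : Set S) ∪ {q}) with hK1
  set k1 : Subfield (algebraicClosure K S) := Subfield.closure ((K' : Set _) ∪ {q'}) with hk1
  have himg1 : inc K '' ((K' : Set _) ∪ {q'}) = (K : Set S) ∪ {q} := by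
    rw [Set.image_union, Set.image_singleton, hq']
    congr 1
    ext x
    constructor
    · rintro ⟨y, hy, rfl⟩
      exact hK'K y hy
    · intro hx
      obtain ⟨y, hy, rfl⟩ := hlift x hx
      exact ⟨y, hy, rfl⟩
  have hlift1 : ∀ x ∈ K1, ∃ y ∈ k1, inc K y = x := fun x hx => exists_of_mem_closure himg1 hx
  have hK1alg : ∀ x ∈ K1, x ∈ algebraicClosure K S := by
    intro x hx
    obtain ⟨y, -, rfl⟩ := hlift1 x hx
    exact y.2
  choose c' hc'k hc' using fun l => hlift1 _ (hc l)
  obtain ⟨w0', hw0'k, hw0'⟩ := hlift1 _ hw0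
  have hinj := (inc K).injective
  have hsc : inc K ((w0' * c' (Fin.last d)) ^ (ν - 1)) = (w0 * c (Fin.last d)) ^ (ν - 1) := by
    rw [map_pow, map_mul, hw0', hc']
  have hac : IsAlgClosed (algebraicClosure K S) := IsAlgClosure.isAlgClosed K
  -- the algebraic elements
  have hθalg : ∀ i, IsAlgebraic K (θ i) := by
    intro i
    have h1 : IsAlgebraic (algebraicClosure K S) (θ i) := by
      refine ⟨∑ l : Fin (d + 1), Polynomial.C
        ((w0' * c' (Fin.last d)) ^ (ν - 1) * (w0' * c' l)) * X ^ (l : ℕ), ?_, ?_⟩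
      · intro h0
        have h1 := congrArg (fun P => P.coeff d) h0
        simp only [finsetSum_coeff, coeff_C_mul_X_pow, coeff_zero] at h1
        rw [Finset.sum_eq_single (Fin.last d)] at h1
        · rw [if_pos (Fin.val_last d).symm] at h1
          apply h.lead
          change (w0 * c (Fin.last d)) ^ (ν - 1) * (w0 * c (Fin.last d)) = 0
          rw [← hsc, ← hc' (Fin.last d), ← hw0', ← map_mul, ← map_mul, h1, map_zero]
        · intro l _ hl
          rw [if_neg]
          intro h
          exact hl (Fin.ext (by simpa using h.symm))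
        · intro h; exact absurd (Finset.mem_univ _) h
      · rw [map_sum, ← h.root i]
        refine Finset.sum_congr rfl fun l _ => ?_
        rw [map_mul, aeval_C, map_pow, aeval_X]
        congr 1
        change inc K ((w0' * c' (Fin.last d)) ^ (ν - 1) * (w0' * c' l)) =
          (w0 * c (Fin.last d)) ^ (ν - 1) * (w0 * c l)
        rw [map_mul, hsc, map_mul, hw0', hc']
    exact h1.restrictScalars K
  have hsub : ∀ x ∈ algebraicClosure K S, ∃ y : algebraicClosure K S, inc K y = x :=
    fun x hx => ⟨⟨x, hx⟩, rfl⟩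
  have hθm : ∀ i, θ i ∈ algebraicClosure K S := fun i => mem_algebraicClosure_iff.2 (hθalg i)
  have hpowm : ∀ (x : S) (n : ℕ), n ≠ 0 → x ^ n ∈ algebraicClosure K S → x ∈ algebraicClosure K S := by
    intro x n hn hx
    rw [mem_algebraicClosure_iff] at hx ⊢
    exact hx.of_pow (Nat.pos_of_ne_zero hn)
  obtain ⟨φ, hφ, hpow⟩ := h.pow
  obtain ⟨ψ, hψ, hcoc⟩ := h.coc
  obtain ⟨χ, hχ, hnrm⟩ := h.nrm
  have hzm : ∀ i j, i ≠ j → z i j ∈ algebraicClosure K S := by
    intro i j hij
    apply hpowm _ p hp.ne'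
    rw [hpow i j hij]
    refine sum_mem fun r _ => sum_mem fun s _ => mul_mem (hK1alg _ (hφ r s)) ?_
    exact mul_mem (pow_mem (hθm i) _) (pow_mem (hθm j) _)
  have hαm : α ∈ algebraicClosure K S := by
    apply hpowm _ p hp.ne'
    rw [h.alpha]
    exact hK1alg _ (h.coef _)
  choose θ' hθ' using fun i => hsub _ (hθm i)
  obtain ⟨α', hα'⟩ := hsub _ hαm
  have hzex : ∀ i j, ∃ y : algebraicClosure K S, i ≠ j → inc K y = z i j := by
    intro i j
    by_cases hij : i = j
    · exact ⟨0, fun h => absurd hij h⟩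
    · obtain ⟨y, hy⟩ := hsub _ (hzm i j hij)
      exact ⟨y, fun _ => hy⟩
  choose z' hz' using hzex
  choose φ' hφ' hφe using fun r s => hlift1 _ (hφ r s)
  choose ψ' hψ' hψe using fun r s t => hlift1 _ (hψ r s t)
  choose χ' hχ' hχe using fun r => hlift1 _ (hχ r)
  have htgt : ∀ l : ℕ, inc K (tgt d (t' / v') l) = tgt d (t / v) l := by
    intro l
    rw [tgt, tgt]
    split_ifs
    · rw [map_one]
    · rw [map_neg, map_one]
    · rw [map_neg, map_div₀, ht', hv']
    · rw [map_zero]
  refine no_lev_dec (C := algebraicClosure K S) hind hC hp hν1 hν hd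
    (W.comap (inc K)) (fun n hn => by
      rw [comap_eq_one, map_natCast]; exact hW n hn)
    (K1 := k1) (fun x hx => Subfield.subset_closure (Or.inl hx)) ?_ c' hc'k w0' ?_
    (θ := θ') (z := z') (α := α') ?_
  · intro σ V hσV hV1 hVt hσk x hx
    have h1 : k1 ≤ (RingEquiv.toRingHom σ).eqLocusField (RingHom.id _) := by
      rw [hk1, Subfield.closure_le]
      rintro y (hy | hy)
      · exact hσk y hy
      · change σ y = y
        rw [Set.mem_singleton_iff.1 hy]
        refine invis V (kc := down K kc) (fun x hx => hV1 x (hkc hx) (hkcW _ hx)) hVt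
          (hq.down hkcK ht' hq') σ hσV (fun x hx => hσk x ?_) (hσk _ ?_)
        · exact Subfield.subset_closure (Or.inl (hkc hx))
        · exact Subfield.subset_closure (Or.inr (Or.inl rfl))
    exact h1 hx
  · intro V hV1 hV2 hV3 hV4
    obtain ⟨V', rfl⟩ := exists_ext_val (inc K) V
    have hvv : ∀ x y : algebraicClosure K S, y ≠ 0 → ((V'.comap (inc K)).valuation x <
        (V'.comap (inc K)).valuation y ↔ V'.valuation (inc K x) < V'.valuation (inc K y)) := by
      intro x y hy
      have h1 : (V'.comap (inc K)).valuation y ≠ 0 := (_root_.map_ne_zero _).2 hy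
      have h2 : V'.valuation (inc K y) ≠ 0 := (_root_.map_ne_zero _).2
        ((_root_.map_ne_zero _).2 hy)
      rw [← div_lt_one₀ (zero_lt_iff.2 h1), ← div_lt_one₀ (zero_lt_iff.2 h2), ← map_div₀,
        ← map_div₀, ← map_div₀, comap_lt_one]
    have hv0 : v' ≠ 0 := hind.ne_zero 1
    have e1 : ∀ x ∈ A, x ∈ W → x ∈ V' := fun x hx hxW =>
      hV1 (toDown hAK ⟨x, hx⟩ : down K A) (Subtype.coe_prop _) hxW
    have e2 : ∀ x ∈ A, W.valuation x < 1 → V'.valuation x < V'.valuation v := by
      intro x hx hxW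
      have h3 := hV2 (toDown hAK ⟨x, hx⟩ : down K A) (Subtype.coe_prop _)
          ((comap_lt_one _ _ _).2 hxW)
      rw [hvv _ _ hv0, hv'] at h3
      exact h3
    have e3 : V'.valuation v < 1 := by
      rw [comap_lt_one, hv'] at hV3
      exact hV3
    have e4 : t / v ∈ V' := by
      have h1 : inc K (t' / v') ∈ V' := hV4
      rwa [map_div₀, ht', hv'] at h1
    obtain ⟨h1, h2⟩ := hval V' e1 e2 e3 e4
    refine ⟨?_, fun l => ?_⟩
    · rw [comap_eq_one, hw0']; exact h1
    · rw [comap_lt_one, map_sub, map_div₀, hc', htgt, hv']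
      exact h2 l
  constructor
  · intro i
    exact k1.mul_mem (k1.pow_mem (k1.mul_mem hw0'k (hc'k _)) _) (k1.mul_mem hw0'k (hc'k i))
  · intro h0
    apply h.lead
    have h1 := congrArg (inc K) h0
    rw [map_mul, hsc, map_mul, hc', hw0', map_zero] at h1
    exact h1
  · intro a b hab
    exact h.inj (by rw [← hθ' a, ← hθ' b, hab])
  · intro i
    apply hinj
    rw [map_sum, map_zero, ← h.root i]
    refine Finset.sum_congr rfl fun l _ => ?_
    rw [map_mul, map_mul, hsc, map_mul, map_pow, hθ', hc', hw0']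
  · intro i j hij h0
    apply h.ne i j hij
    rw [← hz' i j hij, h0, map_zero]
  · refine ⟨φ', hφ', fun i j hij => ?_⟩
    apply hinj
    rw [map_pow, hz' i j hij, hpow i j hij]
    simp only [map_sum, map_mul, map_pow, hθ', hφe]
  · refine ⟨ψ', hψ', fun i j l hij hjl hil => ?_⟩
    apply hinj
    rw [map_mul, map_mul, hz' i j hij, hz' j l hjl, hz' i l hil, hcoc i j l hij hjl hil]
    simp only [map_sum, map_mul, map_pow, hθ', hψe]
  · apply hinj
    rw [map_pow, hα', map_mul, hsc, map_mul, hc', hw0', h.alpha]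
  · refine ⟨χ', hχ', fun i => ?_⟩
    apply hinj
    rw [map_mul, map_prod, hα']
    rw [Finset.prod_congr rfl fun j hj => hz' j i (Finset.ne_of_mem_erase hj), hnrm i]
    simp only [map_sum, map_mul, map_pow, hθ', hχe]

end Pool.Agent.SLS
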