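import Pool.Agent.Helper10.SLS.Asm
import Pool.Agent.Helper10.RR.FinW

/-!
# Project SLS, the final theorem: the degrees of the fields over which there are sections
-/

universe u

namespace Pool.Agent.SLS

open Polynomial IntermediateField UL RR

/-- **No sections outside a thin set**, `w 1 / w 0` transcendental. -/
theorem no_sections_oneS {F k : Type u} [Field F] [CharZero F] [Field k] [Algebra F k]
    (hF : ∃ S : Finset F, Subfield.closure (S : Set F) = ⊤)
    (hk : ∃ S : Finset k, Subfield.closure (S : Set k) = ⊤) {d m : ℕ} {w : Fin (m + 1) → k}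
    (hw0 : w 0 ≠ 0) {o : Fin (m + 1)} (ho : (o : ℕ) = 1) (hT : Transcendental F (w o / w 0))
    (hd : 3 ≤ d) :
    IsThin {a : Fin (d + 1) × Fin (m + 1) → F | ¬ HasNoSectionsS d (curveW w a)} := by
  classical
  obtain ⟨n, s, hs, hTs, hfd⟩ := exists_tower hk hT
  have hF₁ := fg_adjoin hF s
  set F₁ := adjoin F (Set.range s) with hF₁def
  have hF₁0 : CharZero F₁ := charZero_of_injective_algebraMap (algebraMap F F₁).injective
  have h1 := no_sections_S (F := F₁) (k := k) hF₁ hw0 ho hTs hd
  let s₁ : Fin n → F₁ := fun i => ⟨s i, subset_adjoin F _ ⟨i, rfl⟩⟩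
  have hs₁ : AlgebraicIndependent F s₁ := AlgebraicIndependent.of_comp F₁.val (by exact hs)
  have htop : adjoin F (Set.range s₁) = ⊤ := by
    apply IntermediateField.map_injective F₁.val
    rw [adjoin_map, ← Set.range_comp]
    have h2 : (⇑F₁.val ∘ s₁) = s := rfl
    rw [h2, ← hF₁def, ← AlgHom.fieldRange_eq_map, fieldRange_val]
  exact (h1.restrict hs₁ htop).mono fun a ha => ha

/-- **No sections outside a thin set.** -/
theorem no_sections_anyS {F k : Type u} [Field F] [CharZero F] [Field k] [Algebra F k]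
    (hF : ∃ S : Finset F, Subfield.closure (S : Set F) = ⊤)
    (hk : ∃ S : Finset k, Subfield.closure (S : Set k) = ⊤) {d m : ℕ} {w : Fin (m + 1) → k}
    {i j : Fin (m + 1)} (hT : Transcendental F (w i / w j)) (hd : 3 ≤ d) :
    IsThin {a : Fin (d + 1) × Fin (m + 1) → F | ¬ HasNoSectionsS d (curveW w a)} := by
  classical
  have hj : w j ≠ 0 := by
    intro h0
    rw [h0, div_zero] at hT
    exact hT isAlgebraic_zero
  have hij : i ≠ j := by
    rintro rfl
    rw [div_self hj] at hT
    exact hT isAlgebraic_one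
  have hm : 1 ≤ m := by
    by_contra hm
    apply hij
    apply Fin.ext
    have h1 := i.2
    have h2 := j.2
    omega
  let o : Fin (m + 1) := ⟨1, by omega⟩
  have ho0 : (0 : Fin (m + 1)) ≠ o := by
    intro h
    have := congrArg Fin.val h
    simp [o] at this
  let i' : Fin (m + 1) := Equiv.swap 0 j i
  have hi' : i' ≠ 0 := by
    intro h
    have h1 : Equiv.swap 0 j i' = i := Equiv.swap_apply_self 0 j i
    rw [h, Equiv.swap_apply_left] at h1
    exact hij h1.symm
  let g : Fin (m + 1) ≃ Fin (m + 1) := (Equiv.swap o i').trans (Equiv.swap 0 j)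
  have hg0 : g 0 = j := by
    change Equiv.swap 0 j (Equiv.swap o i' 0) = j
    rw [Equiv.swap_apply_of_ne_of_ne ho0 (Ne.symm hi'), Equiv.swap_apply_left]
  have hgo : g o = i := by
    change Equiv.swap 0 j (Equiv.swap o i' o) = i
    rw [Equiv.swap_apply_left]
    exact Equiv.swap_apply_self 0 j i
  have h1 := no_sections_oneS hF hk (w := w ∘ g) (d := d) (by
    change w (g 0) ≠ 0
    rw [hg0]; exact hj) (o := o) rfl (by
    change Transcendental F (w (g o) / w (g 0))
    rw [hg0, hgo]; exact hT) hd
  refine (h1.reindex (Equiv.prodCongr (Equiv.refl (Fin (d + 1))) g)).mono ?_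
  intro a ha
  change ¬ HasNoSectionsS d (curveW (w ∘ g) (a ∘ _))
  rw [curveW_reindex]
  exact ha

end Pool.Agent.SLS
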