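import Pool.Agent.Helper13.RR.DX
import Pool.Agent.Helper13.SX.D1
import Pool.Agent.Helper13.HZ.Transport

/-!
# Project SLS: bounded data of the members of a linear system, for all exponents
-/

set_option linter.unusedVariables false

universe u

namespace Pool.Agent.SLS

open Polynomial Pool.Agent.Helper91.Sect Pool.Agent.Helper37.UL VC FF IntermediateField
open Pool.Agent.TD Pool.Agent.RRW

/-- **Bounded data of the members of a linear system on a curve.** -/
theorem exists_data {F k C : Type u} [Field F] [CharZero F] [Field k] [Algebra F k] [Field C]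
    [Algebra k C] [IsAlgClosure k C] [Algebra F C] [IsScalarTower F k C]
    {T : k} (hT : Transcendental F T) {ϑ : k} (hϑ : IsAlgebraic (IntermediateField.adjoin F {T}) ϑ)
    (htop : IntermediateField.adjoin F {T, ϑ} = ⊤)
    (κ : Subfield C) (hκ : ∀ c : C, c ∈ κ ↔ IsAlgebraic F c)
    {m : ℕ} {w : Fin (m + 1) → k} (hw : w 0 ≠ 0) (d p : ℕ) (hp : 0 < p) (hd : 3 ≤ d) :
    ∃ (D B M : ℕ) (Ψ : MvPolynomial (Fin (d + 1) × Fin (m + 1)) F)
      (Δ : Fin (M + 1) → MvPolynomial (Fin (d + 1) × Fin (m + 1)) F), 0 < B ∧ Ψ ≠ 0 ∧
      ∀ (a : Fin (d + 1) × Fin (m + 1) → F), MvPolynomial.eval a Ψ ≠ 0 →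
      (∃ l, MvPolynomial.eval a (Δ l) ≠ 0) ∧
      ∀ {cc : Fin (d + 1) → C} {θ : Fin d → C} {z : Fin d → Fin d → C} {α : C}
      (hlev : Lev (algebraMap k C).fieldRange p cc θ z α)
      (hroot : ∀ i, ∑ l : Fin (d + 1),
        algebraMap k C (∑ e, algebraMap F k (a (l, e)) * w e) * θ i ^ (l : ℕ) = 0)
      (hin : ∀ V : ValuationSubring C, V ≠ ⊤ → (∀ c : F, algebraMap k C (algebraMap F k c) ∈ V) →
        GoodAt V (fun i => algebraMap k C (∑ l, algebraMap F k (a (i, l)) * w l)) θ →
        ∀ σ : C ≃+* C, Inert (algebraMap k C).fieldRange V σ →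
          ∀ i j, i ≠ j → σ (z i j) = z i j)
      (i j : Fin d) (hij : i ≠ j),
      DataR κ (Subfield.closure ((κ : Set C) ∪ {algebraMap k C T})) (algebraMap k C T) D 0 p B
        (fun (_ : Fin (0 + 1)) (l : Fin (M + 1)) => algebraMap F C (MvPolynomial.eval a (Δ l)))
        ![algebraMap k C ϑ, θ i, θ j] (z i j) := by
  have hk0 : CharZero k := charZero_of_injective_algebraMap (algebraMap F k).injective
  have hCa : IsAlgClosed C := IsAlgClosure.isAlgClosed k
  have hC0 : CharZero C := charZero_of_injective_algebraMap (algebraMap k C).injective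
  have hFκ : ∀ c : F, algebraMap F C c ∈ κ := fun c => (hκ _).2 (isAlgebraic_algebraMap c)
  have htr := kappa_transc_one hκ hT
  let φ : F →+* κ := (algebraMap F C).codRestrict κ.toSubring hFκ
  have hφC : (algebraMap κ C).comp φ = algebraMap F C := rfl
  -- all elements of `k` are algebraic over `F[T]`
  have hfin : FiniteDimensional (IntermediateField.adjoin F {T}) k := by
    have h1 : IntermediateField.adjoin (IntermediateField.adjoin F {T}) {ϑ} = ⊤ := by
      have h2 := IntermediateField.adjoin_adjoin_left F ({T} : Set k) {ϑ}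
      apply IntermediateField.restrictScalars_injective F
      rw [h2, IntermediateField.restrictScalars_top, ← htop]
      congr 1
    have h2 := IntermediateField.adjoin.finiteDimensional hϑ.isIntegral
    rw [h1] at h2
    exact Module.Finite.equiv (IntermediateField.topEquiv
      (F := IntermediateField.adjoin F {T}) (E := k)).toLinearEquiv
  have hkrel : ∀ x : k, ∃ b : F[X][X], b ≠ 0 ∧
      eval₂ (aeval T : F[X] →ₐ[F] k).toRingHom x b = 0 := fun x =>
    exists_poly_rel hT (Algebra.IsAlgebraic.isAlgebraic x)
  -- values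
  have hval : ∀ q : F[X], algebraMap k C (aeval T q) = aeval (algebraMap k C T) (q.map φ) := by
    intro q
    rw [aeval_def, aeval_def, eval₂_map, hom_eval₂, hφC, ← IsScalarTower.algebraMap_eq]
  have hvalhom : (aeval (algebraMap k C T) : κ[X] →ₐ[κ] C).toRingHom.comp (mapRingHom φ) =
      (algebraMap k C).comp (aeval T : F[X] →ₐ[F] k).toRingHom := by
    refine RingHom.ext fun q => ?_
    exact (hval q).symm
  have hinj : Function.Injective (mapRingHom φ) := Polynomial.map_injective _ φ.injective
  -- the relation of `ϑ`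
  obtain ⟨b, hb, hbϑ⟩ := hkrel ϑ
  have hb' : b.map (mapRingHom φ) ≠ 0 := (Polynomial.map_ne_zero_iff hinj).2 hb
  have hbϑ' : eval₂ (aeval (algebraMap k C T) : κ[X] →ₐ[κ] C).toRingHom (algebraMap k C ϑ)
      (b.map (mapRingHom φ)) = 0 := by
    rw [eval₂_map, hvalhom]
    have h2 := congrArg (algebraMap k C) hbϑ
    rw [hom_eval₂, map_zero] at h2
    exact h2
  obtain ⟨R, hR, hRθ⟩ := exists_rel_roots (C := C) (d := d) hkrel hw
  obtain ⟨Δ, hΔ, hΔgood⟩ := exists_bad (C := C) hkrel hw (show 2 ≤ d by omega)
  let m' := (∑ i ∈ b.support, (b.coeff i).natDegree) + ∑ i ∈ R.support, (R.coeff i).natDegree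
  have hbm : ∀ i, ((b.map (mapRingHom φ)).coeff i).natDegree ≤ m' := by
    intro i
    rw [coeff_map]
    refine (natDegree_map_le).trans ?_
    by_cases hi : i ∈ b.support
    · have h1 := Finset.single_le_sum (f := fun i => (b.coeff i).natDegree)
        (fun i _ => Nat.zero_le _) hi
      exact h1.trans (Nat.le_add_right _ _)
    · rw [notMem_support_iff.1 hi, natDegree_zero]
      exact Nat.zero_le _
  have hRm : ∀ i, (R.coeff i).natDegree ≤ m' := by
    intro i
    by_cases hi : i ∈ R.support
    · have h1 := Finset.single_le_sum (f := fun i => (R.coeff i).natDegree)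
        (fun i _ => Nat.zero_le _) hi
      exact h1.trans (Nat.le_add_left _ _)
    · rw [notMem_support_iff.1 hi, natDegree_zero]
      exact Nat.zero_le _
  obtain ⟨B, hB0, hB⟩ := SX.data_coreN.{u} 3 (d + b.natDegree + R.natDegree) m' Δ.natDegree p hp
    (by omega)
  refine ⟨d + b.natDegree + R.natDegree, B, Δ.natDegree,
    R.leadingCoeff.leadingCoeff * Δ.leadingCoeff, fun l => Δ.coeff l, hB0,
    mul_ne_zero (leadingCoeff_ne_zero.2 (leadingCoeff_ne_zero.2 hR)) (leadingCoeff_ne_zero.2 hΔ),
    ?_⟩
  intro a ha
  rw [map_mul] at ha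
  have ha1 := left_ne_zero_of_mul ha
  have ha2 := right_ne_zero_of_mul ha
  refine ⟨⟨⟨Δ.natDegree, Nat.lt_succ_self _⟩, ha2⟩, ?_⟩
  intro cc θ z α hlev hroot hin i j hij
  have hk : ∀ x : k, algebraMap k C x ∈
      IntermediateField.adjoin κ {algebraMap k C T, algebraMap k C ϑ} := by
    intro x
    have h1 : (IntermediateField.adjoin F {T, ϑ} : IntermediateField F k).toSubfield ≤
        (IntermediateField.adjoin κ {algebraMap k C T, algebraMap k C ϑ}).toSubfield.comap
          (algebraMap k C) := by
      rw [IntermediateField.adjoin_toSubfield, Subfield.closure_le]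
      rintro x (⟨y, rfl⟩ | hx)
      · change algebraMap k C (algebraMap F k y) ∈
          IntermediateField.adjoin κ {algebraMap k C T, algebraMap k C ϑ}
        rw [← IsScalarTower.algebraMap_apply F k C]
        exact (IntermediateField.adjoin κ {algebraMap k C T, algebraMap k C ϑ}).algebraMap_mem
          ⟨_, hFκ y⟩
      · rcases hx with rfl | hx
        · exact IntermediateField.subset_adjoin κ _ (by simp)
        · rw [Set.mem_singleton_iff.mp hx]
          exact IntermediateField.subset_adjoin κ _ (by simp)
    rw [htop] at h1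
    exact h1 (Subfield.mem_top x)
  -- `C` is algebraic over `κ(T)`
  have halg : ∀ x : C, IsAlgebraic (IntermediateField.adjoin κ {algebraMap k C T}) x := by
    intro x
    have hϑC : IsAlgebraic (IntermediateField.adjoin κ {algebraMap k C T}) (algebraMap k C ϑ) := by
      obtain ⟨P, hP0, hP⟩ := hϑ
      let ψ : IntermediateField.adjoin F {T} →+* IntermediateField.adjoin κ {algebraMap k C T} :=
        ((algebraMap k C).comp (algebraMap (IntermediateField.adjoin F {T}) k)).codRestrict
          (IntermediateField.adjoin κ {algebraMap k C T}).toSubfield.toSubring (fun x => by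
          have h1 : (IntermediateField.adjoin F {T} : IntermediateField F k).toSubfield ≤
              (IntermediateField.adjoin κ {algebraMap k C T}).toSubfield.comap
                (algebraMap k C) := by
            rw [IntermediateField.adjoin_toSubfield, Subfield.closure_le]
            rintro x (⟨y, rfl⟩ | hx)
            · change algebraMap k C (algebraMap F k y) ∈
                IntermediateField.adjoin κ {algebraMap k C T}
              rw [← IsScalarTower.algebraMap_apply F k C]
              exact (IntermediateField.adjoin κ {algebraMap k C T}).algebraMap_mem ⟨_, hFκ y⟩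
            · rw [Set.mem_singleton_iff.mp hx]
              exact IntermediateField.subset_adjoin κ _ (by simp)
          exact h1 x.2)
      refine ⟨P.map ψ, (Polynomial.map_ne_zero_iff ψ.injective).2 hP0, ?_⟩
      have h1 := congrArg (algebraMap k C) hP
      rw [map_zero, aeval_def, hom_eval₂] at h1
      rw [aeval_def, eval₂_map, ← h1]
      rfl
    have h1 : IsAlgebraic k x := (IsAlgClosure.isAlgebraic (R := k) (K := C)).isAlgebraic x
    have h2 : IsAlgebraic (IntermediateField.adjoin κ
        {algebraMap k C T, algebraMap k C ϑ}).toSubfield x := by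
      obtain ⟨P, hP0, hP⟩ := h1
      let ψ : k →+* (IntermediateField.adjoin κ
          {algebraMap k C T, algebraMap k C ϑ}).toSubfield :=
        (algebraMap k C).codRestrict _ hk
      refine ⟨P.map ψ, (Polynomial.map_ne_zero_iff ψ.injective).2 hP0, ?_⟩
      rw [← hP, aeval_def, eval₂_map]
      rfl
    let A : IntermediateField (IntermediateField.adjoin κ {algebraMap k C T}) C :=
      algebraicClosure (IntermediateField.adjoin κ {algebraMap k C T}) C
    have h3 : (IntermediateField.adjoin κ
        {algebraMap k C T, algebraMap k C ϑ}).toSubfield ≤ A.toSubfield := by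
      rw [IntermediateField.adjoin_toSubfield, Subfield.closure_le]
      rintro y (⟨c, rfl⟩ | hy | hy)
      · exact A.algebraMap_mem (algebraMap κ (IntermediateField.adjoin κ {algebraMap k C T}) c)
      · rw [hy]
        exact A.algebraMap_mem (⟨_, IntermediateField.mem_adjoin_simple_self κ _⟩ :
          IntermediateField.adjoin κ {algebraMap k C T})
      · rw [Set.mem_singleton_iff.mp hy]
        exact mem_algebraicClosure_iff.2 hϑC
    have h4 : IsAlgebraic A x := isAlgebraic_mono (K' := A.toSubfield) h3 h2
    exact (isIntegral_trans (R := IntermediateField.adjoin κ {algebraMap k C T}) (A := A) _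
      h4.isIntegral).isAlgebraic
  -- the relation of the roots
  let f : κ[X][X] := (R.map (mapRingHom (MvPolynomial.eval a))).map (mapRingHom φ)
  have hf0 : f ≠ 0 := by
    refine (Polynomial.map_ne_zero_iff hinj).2 ?_
    intro h0
    apply ha1
    have h1 : (R.leadingCoeff).map (MvPolynomial.eval a) = 0 := by
      have h2 := congrArg (fun Q : F[X][X] => Q.coeff R.natDegree) h0
      simp only [coeff_map, coeff_zero] at h2
      exact h2
    have h2 := congrArg (fun Q : F[X] => Q.coeff R.leadingCoeff.natDegree) h1
    simp only [coeff_map, coeff_zero] at h2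
    exact h2
  have hfD : f.natDegree ≤ d + b.natDegree + R.natDegree := by
    refine (natDegree_map_le).trans ((natDegree_map_le).trans ?_)
    omega
  have hfm : ∀ i, (f.coeff i).natDegree ≤ m' := by
    intro i
    simp only [f]
    rw [coeff_map, coeff_map]
    exact (natDegree_map_le).trans ((natDegree_map_le).trans (hRm i))
  have hfθ : ∀ j, eval₂ (aeval (algebraMap k C T) : κ[X] →ₐ[κ] C).toRingHom (θ j) f = 0 := by
    intro j
    simp only [f]
    rw [eval₂_map, hvalhom]
    exact hRθ a (hroot j)
  -- the bad polynomial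
  let bad : κ[X] := (Δ.map (MvPolynomial.eval a)).map φ
  have hbad0 : bad ≠ 0 := by
    refine (Polynomial.map_ne_zero_iff φ.injective).2 ?_
    intro h0
    apply ha2
    have h2 := congrArg (fun Q : F[X] => Q.coeff Δ.natDegree) h0
    simp only [coeff_map, coeff_zero] at h2
    exact h2
  have hbadd : bad.natDegree ≤ Δ.natDegree := (natDegree_map_le).trans (natDegree_map_le)
  have hbadc : (fun (_ : Fin (0 + 1)) (l : Fin (Δ.natDegree + 1)) =>
      algebraMap F C (MvPolynomial.eval a (Δ.coeff l))) =
      fun (_ : Fin (0 + 1)) (l : Fin (Δ.natDegree + 1)) => ((bad.coeff l : κ) : C) := by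
    funext _ l
    simp only [bad, coeff_map]
    rfl
  rw [hbadc]
  -- the field
  have hkE : ∀ x : k, algebraMap k C x ∈ IntermediateField.adjoin κ (insert (algebraMap k C T)
      (Set.range ![algebraMap k C ϑ, θ i, θ j])) := by
    intro x
    have h1 : IntermediateField.adjoin κ {algebraMap k C T, algebraMap k C ϑ} ≤
        IntermediateField.adjoin κ (insert (algebraMap k C T)
          (Set.range ![algebraMap k C ϑ, θ i, θ j])) := by
      rw [IntermediateField.adjoin_le_iff]
      rintro y (hy | hy)
      · rw [hy]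
        exact IntermediateField.subset_adjoin κ _ (Or.inl rfl)
      · rw [Set.mem_singleton_iff.mp hy]
        exact IntermediateField.subset_adjoin κ _ (Or.inr ⟨0, rfl⟩)
    exact h1 (hk x)
  refine hB κ (kappa_closed_one k hκ) htr halg (rt := ![algebraMap k C ϑ, θ i, θ j])
    (f := ![b.map (mapRingHom φ), f, f]) ?_ ?_ ?_ ?_ (hlev.ne i j hij) ?_ hbad0 hbadd ?_
  · intro l
    fin_cases l
    · exact hb'
    · exact hf0
    · exact hf0
  · intro l
    fin_cases l
    · exact (natDegree_map_le).trans (by omega)
    · exact hfD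
    · exact hfD
  · intro l
    fin_cases l
    · exact hbm
    · exact hfm
    · exact hfm
  · intro l
    fin_cases l
    · exact hbϑ'
    · exact hfθ i
    · exact hfθ j
  · obtain ⟨ψ, hψ, hz⟩ := hlev.pow
    rw [hz i j hij]
    refine sum_mem fun r _ => sum_mem fun s _ => ?_
    obtain ⟨x, hx⟩ := hψ r s
    rw [← hx]
    refine mul_mem (hkE x) (mul_mem (pow_mem ?_ _) (pow_mem ?_ _))
    · exact IntermediateField.subset_adjoin κ _ (Or.inr ⟨1, rfl⟩)
    · exact IntermediateField.subset_adjoin κ _ (Or.inr ⟨2, rfl⟩)
  · intro V hκV t₀ ht₀ hbt σ hσ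
    have hgood : GoodAt V (fun i => algebraMap k C (∑ l, algebraMap F k (a (i, l)) * w l)) θ := by
      refine hΔgood hκV hFκ ht₀ a ?_ hlev.inj hroot
      intro h0
      apply hbt
      apply Subtype.ext
      have h1 : ((bad.eval t₀ : κ) : C) = eval₂ (algebraMap F C) (t₀ : C)
          (Δ.map (MvPolynomial.eval a)) := by
        simp only [bad]
        rw [eval_map]
        change (algebraMap κ C) (eval₂ φ t₀ _) = _
        rw [hom_eval₂]
        rfl
      rw [h1, h0]
      rfl
    have hσ' : Inert (algebraMap k C).fieldRange V σ := ⟨by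
      rintro _ ⟨x, rfl⟩
      exact hσ.fix _ (hkE x), hσ.dec, hσ.res⟩
    by_cases hV : V = ⊤
    · -- the trivial valuation ring
      have h1 := hσ.res (z i j) (by rw [hV]; trivial)
      have h2 : σ (z i j) - z i j = 0 := by
        by_contra hne
        subst hV
        have h3 : (⊤ : ValuationSubring C).valuation (σ (z i j) - z i j)⁻¹ ≤ 1 :=
          ((⊤ : ValuationSubring C).valuation_le_one_iff _).2 (by trivial)
        rw [map_inv₀] at h3
        have h4 : (⊤ : ValuationSubring C).valuation (σ (z i j) - z i j) ≠ 0 := by simpa using hne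
        exact absurd h1 (not_lt.2 ((inv_le_one₀ (zero_lt_iff.2 h4)).1 h3))
      exact sub_eq_zero.1 h2
    · refine hin V hV (fun c => ?_) hgood σ hσ' i j hij
      rw [← IsScalarTower.algebraMap_apply]
      exact hκV _ (hFκ c)

end Pool.Agent.SLS
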