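import Pool.Agent.Helper13.LG.G12
import Pool.Agent.Helper37.UL.A4
import Pool.Agent.Helper13.PL.L2
import Pool.Agent.Helper13.GC.C4

/-!
# Project SLS: inertia at good places acts trivially on the Kummer functions, for all exponents
-/

universe u

namespace Pool.Agent.SLS

open Polynomial Pool.Agent.Helper91.Sect Pool.Agent.LT Pool.Agent.SC Pool.Agent.Helper37.UL

section good

variable {k K : Type u} [Field k] [Field K] [Algebra k K]

/-- Good reduction, from the roots. -/
theorem goodRed_of_roots [CharZero k] {W : ValuationSubring (kbar k K)}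
    (hres : CharZero (IsLocalRing.ResidueField W)) {f : k[X]} {d : ℕ} (hd : 1 ≤ d)
    (hfd : f.natDegree = d) {θ : Fin d → kbar k K}
    (hfac : f.map (algebraMap k (kbar k K)) =
      C (algebraMap k (kbar k K) f.leadingCoeff) * ∏ i, (X - C (θ i)))
    (hcoef : ∀ i, algebraMap k (kbar k K) (f.coeff i) ∈ W)
    (hlead : W.valuation (algebraMap k (kbar k K) f.leadingCoeff) = 1)
    (hθ : ∀ i, θ i ∈ W) (hsep : ∀ i j, i ≠ j → W.valuation (θ i - θ j) = 1) : GoodRed W f := by
  classical
  set φ := algebraMap k (kbar k K) with hφ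
  have hlcu : φ f.leadingCoeff ∉ W.nonunits := by
    rw [ValuationSubring.mem_nonunits_iff, hlead]
    exact lt_irrefl _
  obtain ⟨R₁, hR₁⟩ := Pool.Agent.GC.exists_lift W (f.map φ) fun n => by rw [coeff_map]; exact hcoef n
  have hinj : Function.Injective (algebraMap W (kbar k K)) := IsFractionRing.injective W _
  have hnat : R₁.natDegree = f.natDegree := by
    rw [← natDegree_map_eq_of_injective hinj R₁, hR₁, natDegree_map_eq_of_injective φ.injective]
  have hlc : algebraMap W (kbar k K) R₁.leadingCoeff = φ f.leadingCoeff := by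
    rw [leadingCoeff, hnat, ← coeff_map, hR₁, coeff_map]
    rfl
  set res := IsLocalRing.residue W with hresd
  have hlcres : res R₁.leadingCoeff ≠ 0 := by
    intro h0
    rw [IsLocalRing.residue_eq_zero_iff] at h0
    apply hlcu
    rw [← hlc, ValuationSubring.mem_nonunits_iff_exists_mem_maximalIdeal]
    exact ⟨R₁.leadingCoeff.2, h0⟩
  have hnat2 : (R₁.map res).natDegree = R₁.natDegree := natDegree_map_of_leadingCoeff_ne_zero _ hlcres
  have hsep2 : (R₁.map res).Separable := by
    refine separable_of_good (k := kbar k K) (C := kbar k K) (V := W) (O := W) hθ hsep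
      (a := R₁.leadingCoeff) ?_ ?_ (fun c => Iff.rfl)
    · change W.valuation (algebraMap W (kbar k K) R₁.leadingCoeff) = 1
      rw [hlc]
      exact hlead
    · rw [hlc, ← hfac]
      exact hR₁
  -- the resultant
  set N := f.natDegree with hN
  have hrk : CharZero (kbar k K) := charZero_of_injective_algebraMap (algebraMap k (kbar k K)).injective
  have hder : (derivative (R₁.map res)).natDegree = N - 1 := by
    rw [natDegree_derivative, hnat2, hnat]
  have h1 : resultant (R₁.map res) (derivative (R₁.map res)) N (N - 1) ≠ 0 := by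
    have h2 : N = (R₁.map res).natDegree := by rw [hnat2, hnat]
    rw [← hder]
    conv_lhs => rw [h2]
    rw [Ne, resultant_eq_zero_iff]
    intro h3
    exact h3.2 hsep2
  rw [derivative_map, resultant_map_map] at h1
  have h2 : algebraMap W (kbar k K) (resultant R₁ (derivative R₁) N (N - 1)) =
      φ (resultant f (derivative f) N (N - 1)) := by
    rw [← resultant_map_map, ← resultant_map_map, ← derivative_map, hR₁, derivative_map]
  have h3 : φ (resultant f (derivative f) N (N - 1)) ∉ W.nonunits := by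
    rw [← h2, ValuationSubring.mem_nonunits_iff_exists_mem_maximalIdeal]
    rintro ⟨h4, h5⟩
    apply h1
    rw [IsLocalRing.residue_eq_zero_iff]
    exact h5
  have h4 := resultant_deriv (f := f) (natDegree_pos_iff_degree_pos.1 (by omega))
  rw [← hN] at h4
  rw [h4, map_mul, map_mul, map_pow, map_neg, map_one] at h3
  refine ⟨hcoef, hlcu, fun h5 => h3 ?_⟩
  rw [ValuationSubring.mem_nonunits_iff] at h5 ⊢
  rw [map_mul, map_mul, map_pow, Valuation.map_neg, map_one, one_pow, one_mul]
  calc W.valuation (φ f.leadingCoeff) * W.valuation (φ f.discr)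
      ≤ 1 * W.valuation (φ f.discr) :=
        mul_le_mul' ((W.valuation_le_one_iff _).2 (hcoef _)) le_rfl
    _ < 1 := by rw [one_mul]; exact h5

end good

section inert

variable {k₁ k K : Type u} [Field k₁] [CharZero k₁] [Field k] [Field K] [Algebra k₁ k]
  [Algebra k K] [Algebra k₁ K] [IsScalarTower k₁ k K]

/-- values of linear polynomials -/
theorem val_sub_one {W : ValuationSubring (kbar k K)} {t' : kbar k K}
    (hb : Base (algebraicClosure k₁ (kbar k K)) W t') {x : K} {V : ValuationSubring (UU k K)}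
    (hV : Gauss (algebraicClosure k₁ (kbar k K)) W (toU x) V) {θ : kbar k K} (hθ : θ ∈ W) :
    V.valuation (toU x - algebraMap (kbar k K) (UU k K) θ) = 1 := by
  have hac : IsAlgClosed (algebraicClosure k₁ (kbar k K)) :=
    (inferInstance : IsAlgClosure k₁ (algebraicClosure k₁ (kbar k K))).isAlgClosed
  have h1 : aeval (toU (k := k) x) (X - C θ) = toU x - algebraMap (kbar k K) (UU k K) θ := by
    rw [map_sub, aeval_X, aeval_C]
  refine le_antisymm ?_ ?_
  · rw [V.valuation_le_one_iff]
    exact V.toSubring.sub_mem hV.x_mem ((hV.mem_iff _).2 hθ)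
  · rw [← not_lt]
    intro h4
    rw [← h1] at h4
    have h5 := (Gauss.val_poly_lt hb hV (X - C θ) 1 one_ne_zero).1 (by rw [map_one, map_one]; exact h4)
    have h6 := h5 1
    rw [coeff_sub, coeff_X_one, coeff_C_succ, sub_zero, map_one] at h6
    exact lt_irrefl _ h6

/-- **Inertia at good places fixes the Kummer functions.** -/
theorem root_inert (hF₁ : ∃ S : Finset k₁, Subfield.closure (S : Set k₁) = ⊤)
    (t : k) (hfin : FiniteDimensional (IntermediateField.adjoin k₁ {t}) k)
    {n : ℕ} {f : k[X]} {x y : K} (h : SuperE n f 1 x y) (s : GaloisSection k K)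
    {W : ValuationSubring (kbar k K)} (hW : W ≠ ⊤)
    (hk₁ : ∀ c : k₁, algebraMap k₁ (kbar k K) c ∈ W) (hf : GoodRed W f)
    {θ₁ θ₂ : kbar k K} (hθ₁ : θ₁ ∈ W) (hθ₂ : θ₂ ∈ W) {p : ℕ} (hp : p ≠ 0)
    {w : AlgebraicClosure K} (hwK : w ∈ Kur k K)
    (hw : w ^ p * (algebraMap K (AlgebraicClosure K) x - (θ₂ : AlgebraicClosure K)) =
      algebraMap K (AlgebraicClosure K) x - (θ₁ : AlgebraicClosure K))
    {τ : Gk k K} (hτ : InInert W τ) (hτ₁ : τ θ₁ = θ₁) (hτ₂ : τ θ₂ = θ₂)
    {σ : AlgebraicClosure K ≃ₐ[K] AlgebraicClosure K} (hσ : ∀ w : Kur k K, σ w = s.toHom τ w) :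
    σ w = w := by
  classical
  have hk0 : CharZero k := charZero_of_injective_algebraMap (algebraMap k₁ k).injective
  have hkb0 : CharZero (kbar k K) :=
    charZero_of_injective_algebraMap (algebraMap k (kbar k K)).injective
  have hU0 : CharZero (UU k K) :=
    charZero_of_injective_algebraMap (algebraMap (kbar k K) (UU k K)).injective
  have hac : IsAlgClosed (algebraicClosure k₁ (kbar k K)) :=
    (inferInstance : IsAlgClosure k₁ (algebraicClosure k₁ (kbar k K))).isAlgClosed
  have hpinv : (p : kbar k K)⁻¹ ∈ W := by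
    have h1 := hk₁ ((p : k₁)⁻¹)
    rwa [map_inv₀, map_natCast] at h1
  obtain ⟨t', hb⟩ := exists_base' (K := K) t hfin hW hk₁
  have hu := h.usetup hb hf
  obtain ⟨V, hV⟩ := exists_gauss (N := UU k K) hb hu.tr
  have ha := locAct' s hF₁ t hfin hW hk₁ x
  have hres := ha.trivial hu hV (τ := τ) hτ (fun z hz hzM =>
    h.inert_trivial s hb hf hu (by rw [map_one]; exact W.one_mem) (by
      rw [map_one, ValuationSubring.mem_nonunits_iff, map_one]
      exact lt_irrefl _) hV hτ hz hzM)
  -- the root
  have hwU : w ∈ UU k K := (mem_UU k K).2 hwK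
  set w₁ : UU k K := ⟨w, hwU⟩ with hw₁
  have hvP := val_sub_one hb hV hθ₁
  have hvQ := val_sub_one hb hV hθ₂
  have hwp : w₁ ^ p * (toU x - algebraMap (kbar k K) (UU k K) θ₂) =
      toU x - algebraMap (kbar k K) (UU k K) θ₁ := by
    apply Subtype.ext
    exact hw
  have hwv : V.valuation w₁ = 1 := by
    have h1 := congrArg V.valuation hwp
    rw [map_mul, map_pow, hvP, hvQ, mul_one] at h1
    exact (pow_eq_one_iff_of_nonneg zero_le hp).1 h1
  have hwV : w₁ ∈ V := (V.valuation_le_one_iff _).1 hwv.le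
  have hw0 : w₁ ≠ 0 := by
    intro h
    rw [h, map_zero] at hwv
    exact zero_ne_one hwv
  have h1 := hres w₁ hwV
  -- the action
  have hact : ((actU s τ w₁ : UU k K) : AlgebraicClosure K) = σ w := by
    rw [coe_actU, ← hσ]
  have hQ0 : algebraMap K (AlgebraicClosure K) x - (θ₂ : AlgebraicClosure K) ≠ 0 := by
    intro h0
    have h2 : toU x - algebraMap (kbar k K) (UU k K) θ₂ = 0 := Subtype.ext h0
    rw [h2, map_zero] at hvQ
    exact zero_ne_one hvQ
  have hpow : (σ w) ^ p = w ^ p := by
    have h2 := congrArg σ hw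
    rw [map_mul, map_pow, map_sub, map_sub, σ.commutes, ext_const s hσ, ext_const s hσ, hτ₁,
      hτ₂] at h2
    exact mul_right_cancel₀ hQ0 (h2.trans hw.symm)
  have hζ : (actU s τ w₁ / w₁) ^ p = 1 := by
    rw [div_pow]
    have h2 : (actU s τ w₁) ^ p = w₁ ^ p := by
      apply Subtype.ext
      change ((actU s τ w₁ : UU k K) : AlgebraicClosure K) ^ p = w ^ p
      rw [hact, hpow]
    rw [h2]
    exact div_self (pow_ne_zero _ hw0)
  have h3 : V.valuation (actU s τ w₁ / w₁ - 1) < 1 := by
    have h4 : actU s τ w₁ / w₁ - 1 = (actU s τ w₁ - w₁) / w₁ := by field_simp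
    rw [h4, map_div₀, hwv, div_one]
    exact (V.mem_nonunits_iff).1 h1
  have hpV : (p : UU k K)⁻¹ ∈ V := by
    have h4 := (hV.mem_iff _).2 hpinv
    rwa [map_inv₀, map_natCast] at h4
  have h4 := PL.mu_eq_one hpV (Nat.cast_ne_zero.2 hp) hζ h3
  rw [div_eq_one_iff_eq hw0] at h4
  rw [← hact, h4]

end inert

end Pool.Agent.SLS
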