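import Pool.Agent.Helper37.UL.A2
import Pool.Agent.Helper10.SLS.Inert

/-!
# Project SLS: the level one structure over the algebraic closure of `k` in `K`, for all exponents
-/

universe u

namespace Pool.Agent.SLS

open Polynomial Pool.Agent.Helper91.Sect Pool.Agent.Helper91.SE Pool.Agent.LT Pool.Agent.SC
  Pool.Agent.Helper37.UL

section

variable {k₁ k K : Type u} [Field k₁] [CharZero k₁] [Field k] [Field K] [Algebra k₁ k]
  [Algebra k K] [Algebra k₁ K] [IsScalarTower k₁ k K]

theorem exists_kbar (hF₁ : ∃ S : Finset k₁, Subfield.closure (S : Set k₁) = ⊤)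
    (t : k) (hfin : FiniteDimensional (IntermediateField.adjoin k₁ {t}) k)
    {p d : ℕ} (hp : 2 ≤ p) (hdvd : p ∣ d) (hd : 3 ≤ d) {f : k[X]}
    (hf : f.Separable) (hfd : f.natDegree = d) {x y : K} (hx : Transcendental k x)
    (hxy : y ^ p = aeval x f) (hgen : IntermediateField.adjoin k {x, y} = ⊤)
    (s : GaloisSection k K) :
    ∃ (θ : Fin d → kbar k K) (z : Fin d → Fin d → kbar k K) (α : kbar k K),
      Function.Injective θ ∧ (∀ i, aeval (θ i) f = 0) ∧ (∀ i j, z i j ≠ 0) ∧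
      α ^ p = algebraMap k (kbar k K) f.leadingCoeff ∧
      (∀ σ : Gk k K, ∃ (ρ : Fin d → Fin d) (ζ : Fin d → Fin d → kbar k K),
        (∀ i, σ (θ i) = θ (ρ i)) ∧ (∀ i j, ζ i j ^ p = 1) ∧
        (∀ i j, σ (z i j) = ζ i j * z (ρ i) (ρ j)) ∧
        (∀ i j l, ζ i j * ζ j l = ζ i l) ∧
        ∀ i, σ α * ∏ j ∈ Finset.univ.erase i, ζ j i = α) ∧
      ∀ W : ValuationSubring (kbar k K), W ≠ ⊤ →
        (∀ c : k₁, algebraMap k₁ (kbar k K) c ∈ W) →
        (∀ i, algebraMap k (kbar k K) (f.coeff i) ∈ W) →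
        W.valuation (algebraMap k (kbar k K) f.leadingCoeff) = 1 → (∀ i, θ i ∈ W) →
        (∀ i j, i ≠ j → W.valuation (θ i - θ j) = 1) →
        ∀ τ : Gk k K, InInert W τ → ∀ i j, τ (z i j) = z i j := by
  classical
  have hk0 : CharZero k := charZero_of_injective_algebraMap (algebraMap k₁ k).injective
  have hp0 : p ≠ 0 := by omega
  have hf0 : f ≠ 0 := hf.ne_zero
  have hinjk : Function.Injective (algebraMap k (kbar k K)) := (algebraMap k (kbar k K)).injective
  set R : Finset (kbar k K) := (f.aroots (kbar k K)).toFinset with hR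
  have hmemR : ∀ r : kbar k K, r ∈ R ↔ aeval r f = 0 := by
    intro r
    rw [hR, Multiset.mem_toFinset, aroots_def, mem_roots ((Polynomial.map_ne_zero_iff hinjk).2 hf0),
      IsRoot.def, eval_map_algebraMap]
  have hsplits : (f.map (algebraMap k (kbar k K))).Splits := IsAlgClosed.splits _
  have hnodup : (f.aroots (kbar k K)).Nodup := nodup_roots hf.map
  have hRval : R.val = f.aroots (kbar k K) := by
    rw [hR, Multiset.toFinset_val, hnodup.dedup]
  have hRcard : R.card = d := by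
    rw [Finset.card_def, hRval, aroots_def, ← hsplits.natDegree_eq_card_roots,
      natDegree_map_eq_of_injective hinjk, hfd]
  set X₀ := algebraMap K (AlgebraicClosure K) x with hX₀
  set Y₀ := algebraMap K (AlgebraicClosure K) y with hY₀
  set a₀ : kbar k K := algebraMap k (kbar k K) f.leadingCoeff with ha₀
  have ha₀0 : a₀ ≠ 0 := by
    rw [ha₀, Ne, map_eq_zero, leadingCoeff_eq_zero]
    exact hf0
  have hfac : f.map (algebraMap k (kbar k K)) =
      Polynomial.C a₀ * ∏ r ∈ R, (X - Polynomial.C r) := by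
    have h3 := hsplits.eq_prod_roots
    rw [leadingCoeff_map_of_injective hinjk] at h3
    rw [h3]
    congr 1
    rw [Finset.prod_eq_multiset_prod, hRval, aroots_def]
  have heq : ((1 : kbar k K) : AlgebraicClosure K) * Y₀ ^ p =
      a₀ * ∏ r ∈ R, (X₀ - (r : AlgebraicClosure K)) := by
    have h3 : eval₂ (algebraMap (kbar k K) (AlgebraicClosure K)) X₀
        (f.map (algebraMap k (kbar k K))) = a₀ * ∏ r ∈ R, (X₀ - (r : AlgebraicClosure K)) := by
      rw [hfac, eval₂_mul, eval₂_C, eval₂_finsetProd]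
      congr 1
      refine Finset.prod_congr rfl fun r _ => ?_
      rw [eval₂_sub, eval₂_X, eval₂_C]; rfl
    rw [← h3, eval₂_map]
    have h4 := congrArg (algebraMap K (AlgebraicClosure K)) hxy
    rw [map_pow, aeval_def, hom_eval₂] at h4
    have h5 : ((1 : kbar k K) : AlgebraicClosure K) = 1 := rfl
    rw [h5, one_mul, h4]
    congr 1
  have hperm : ∀ σ : Gk k K, ∀ r ∈ R, σ r ∈ R := by
    intro σ r hr
    rw [hmemR] at hr ⊢
    have h1 := aeval_algHom_apply (σ : kbar k K →ₐ[k] kbar k K) r f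
    rw [hr, map_zero] at h1
    exact h1
  have hsqrt : ∀ r : kbar k K, ∃ v : AlgebraicClosure K, v ^ p = X₀ - (r : AlgebraicClosure K) :=
    fun r => IsAlgClosed.exists_pow_nat_eq _ (Nat.pos_of_ne_zero hp0)
  choose v hv using hsqrt
  have hX₀tr : Transcendental k X₀ := by
    intro h
    exact hx ((isAlgebraic_algebraMap_iff (algebraMap K (AlgebraicClosure K)).injective).1 h)
  have hv0 : ∀ r : kbar k K, v r ≠ 0 := by
    intro r h0
    apply hX₀tr
    have h1 := hv r
    rw [h0, zero_pow hp0, eq_comm, sub_eq_zero] at h1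
    rw [h1]
    exact (mem_algebraicClosure_iff).1 r.2
  obtain ⟨e, he⟩ := exists_e hp0 ha₀0 heq hv hv0 s hperm
  obtain ⟨α, hαp, hα⟩ := exists_alpha hp0 ha₀0 heq hv hv0
  obtain ⟨m, hm⟩ := hdvd
  have hRm : R.card = p * m := hRcard.trans hm
  let E := R.equivFinOfCardEq hRcard
  obtain ⟨θ, hθ⟩ : ∃ θ : Fin d → kbar k K, ∀ i, θ i = E.symm i := ⟨_, fun _ => rfl⟩
  have hθR : ∀ i, θ i ∈ R := fun i => by rw [hθ]; exact (E.symm i).2
  have hθinj : Function.Injective θ := by
    intro i j hij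
    rw [hθ, hθ] at hij
    exact E.symm.injective (Subtype.ext hij)
  have hprod : ∀ g : kbar k K → kbar k K, ∏ i, g (θ i) = ∏ r ∈ R, g r := by
    intro g
    rw [← Finset.prod_coe_sort R g]
    simp only [hθ]
    exact Equiv.prod_comp E.symm (fun r : R => g (r : kbar k K))
  have hsurj : ∀ r ∈ R, ∃ i, θ i = r := by
    intro r hr
    exact ⟨E ⟨r, hr⟩, by rw [hθ, Equiv.symm_apply_apply]⟩
  have hmemK : ∀ r ∈ R, ∀ r' ∈ R, v r / v r' ∈ Kur k K := fun r hr r' hr' =>
    pairn_mem_Kur hp0 ha₀0 one_ne_zero heq hv hr hr'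
  refine ⟨θ, fun i j => (e (θ i, θ j))⁻¹, α, hθinj, fun i => (hmemR _).1 (hθR i),
    fun i j => inv_ne_zero (he _ (hθR i) _ (hθR j)).1, hαp, ?_, ?_⟩
  · intro σ
    have hρ : ∀ i, ∃ j, θ j = σ (θ i) := fun i => hsurj _ (hperm σ _ (hθR i))
    choose ρ hρ using hρ
    refine ⟨ρ, fun i j => e (σ (θ i), σ (θ j)) / σ (e (θ i, θ j)), fun i => (hρ i).symm,
      fun i j => zeta_pow hv hv0 s he σ (hθR i) (hθR j), ?_,
      fun i j l => zeta_coc hv0 s he σ (hθR i) (hθR j) (hθR l), ?_⟩
    · intro i j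
      change σ (e (θ i, θ j))⁻¹ =
        e (σ (θ i), σ (θ j)) / σ (e (θ i, θ j)) * (e (θ (ρ i), θ (ρ j)))⁻¹
      rw [map_inv₀, hρ, hρ]
      have h1 := (he _ (hperm σ _ (hθR i)) _ (hperm σ _ (hθR j))).1
      field_simp
    · intro i
      have h1 := zeta_nrm hv hv0 s hperm he hRm hα σ (hθR i)
      rw [← hprod (fun r => e (σ r, σ (θ i)) / σ (e (r, θ i)))] at h1
      rw [Finset.prod_erase (f := fun j => e (σ (θ j), σ (θ i)) / σ (e (θ j, θ i)))]
      · exact h1
      · exact zeta_self hv0 s he σ (hθR i)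
  · intro W hW hk₁ hcoef hlead hθW hsep τ hτ
    have hres : CharZero (IsLocalRing.ResidueField W) := by
      let φ : k₁ →+* W := (algebraMap k₁ (kbar k K)).codRestrict W.toSubring hk₁
      exact charZero_of_injective_ringHom ((IsLocalRing.residue W).comp φ).injective
    have hgr : GoodRed W f := goodRed_of_roots hres (by omega : 1 ≤ d) hfd (θ := θ) (by
      rw [hfac, ← Finset.prod_coe_sort R]
      congr 1
      simp only [hθ]
      exact (Equiv.prod_comp E.symm (fun r : R => X - Polynomial.C (r : kbar k K))).symm)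
      hcoef hlead hθW hsep
    have hS : SuperE p f 1 x y := ⟨hp, by rw [hfd]; exact hd, hf, one_ne_zero, hx, by
      rw [map_one, one_mul, hxy], hgen⟩
    have hfix : ∀ i, τ (θ i) = θ i := by
      intro i
      obtain ⟨j, hj⟩ := hsurj _ (hperm τ _ (hθR i))
      by_contra hne
      rw [← hj] at hne
      have hji : j ≠ i := fun h => hne (by rw [h])
      have h1 := hτ.2 (θ i) (hθW i)
      rw [← hj, ValuationSubring.mem_nonunits_iff, hsep _ _ hji] at h1
      exact lt_irrefl _ h1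
    obtain ⟨ξ, hξs⟩ := exists_ext s τ
    intro i j
    have h1 := (he _ (hθR i) _ (hθR j)).2 τ ξ hξs
    have h2 : ξ (v (θ i) / v (θ j)) = v (θ i) / v (θ j) := by
      refine root_inert hF₁ t hfin hS s hW hk₁ hgr (hθW i) (hθW j) hp0
        (hmemK _ (hθR i) _ (hθR j)) ?_ hτ (hfix i) (hfix j) hξs
      rw [div_pow, hv, hv, div_mul_cancel₀]
      rw [← hv]
      exact pow_ne_zero _ (hv0 _)
    rw [map_mul, ext_const s hξs, h2, hfix i, hfix j] at h1
    have h3 : τ (e (θ i, θ j)) = e (θ i, θ j) :=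
      Subtype.ext (mul_right_cancel₀ (div_ne_zero (hv0 _) (hv0 _)) h1)
    change τ (e (θ i, θ j))⁻¹ = (e (θ i, θ j))⁻¹
    rw [map_inv₀, h3]

end

end Pool.Agent.SLS
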