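import Pool.Agent.Helper10.OE.Desc
import Pool.Agent.Helper10.BT.A4
import Pool.Agent.Helper10.UL.Count
import Pool.Agent.Helper10.SLS.Kb
import Pool.Agent.Helper37.UL.E2
import Pool.Agent.Helper10.PL.OE6

/-!
# Project SLS: level one structures attached to sections over extensions of a given degree

A level one structure over a finite extension `k'` of `k` gives a level one structure over `k`, for the polynomial
scaled such that its leading coefficient is the `ν`-th power of the old one, where `ν` is the residue of the degree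
modulo `p`: take the product over all embeddings of `k'`.
-/

universe u

set_option linter.unusedSectionVars false

namespace Pool.Agent.SLS

open Polynomial Pool.Agent.Helper91.Sect Pool.Agent.SC Pool.Agent.Helper37.UL Finset OE

/-- a curve over `y ^ p = f(x)` has a section over a finite extension of degree congruent to `c` modulo `p` -/
def SectionD {k : Type u} [Field k] (p c : ℕ) (f : k[X]) : Prop :=
  ∃ (k' : Type u) (_ : Field k') (_ : Algebra k k'), FiniteDimensional k k' ∧
    Module.finrank k k' % p = c ∧ UL.SectionP p (f.map (algebraMap k k'))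

section

variable {k k' C : Type u} [Field k] [Field k'] [Field C] [Algebra k k'] [Algebra k' C]
  [Algebra k C] [IsScalarTower k k' C] [FiniteDimensional k k'] [IsAlgClosed C] [CharZero C]
  [Algebra.IsAlgebraic k C]

variable {p d : ℕ} {a : Fin (d + 1) → C} {θ : Fin d → C} {z : Fin d → Fin d → C} {α : C}

/-- **Descent of level one structures.** -/
theorem lev_descend (hp : p ≠ 0) {ν l : ℕ} (hν : 1 ≤ ν) (hdeg : Module.finrank k k' = ν + p * l)
    (hcoef : ∀ i, a i ∈ (algebraMap k C).fieldRange)
    (h : Lev (algebraMap k' C).fieldRange p a θ z α) :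
    ∃ (z' : Fin d → Fin d → C) (α' : C), Lev (algebraMap k C).fieldRange p
        (fun i => a (Fin.last d) ^ (ν - 1) * a i) θ z' α' ∧
      ∀ V : ValuationSubring C, (∀ i, θ i ∈ V) →
        (∀ i j, i ≠ j → V.valuation (θ i - θ j) = 1) → (p : C)⁻¹ ∈ V →
        (∀ (τ : C ≃ₐ[k] C) (σ : C ≃+* C), Inert (algebraMap k' C).fieldRange
          (V.comap (τ : C →+* C)) σ → ∀ i j, i ≠ j → σ (z i j) = z i j) →
        ∀ σ : C ≃+* C, Inert (algebraMap k C).fieldRange V σ →
          ∀ i j, i ≠ j → σ (z' i j) = z' i j := by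
  classical
  have hk0 : CharZero k := (algebraMap k C).charZero
  obtain ⟨r, hr⟩ := exists_r hcoef h
  choose Z hZpow hZact hZcoc hZnrm using
    fun (σ : C ≃ₐ[k] C) (ω : k' →ₐ[k] C) => exists_Z h hr σ ω
  have hcard : Fintype.card (k' →ₐ[k] C) = Module.finrank k k' := AlgHom.card k k' C
  set z₁ : Fin d → Fin d → C := fun i j => ∏ ω : k' →ₐ[k] C, ee z r ω i j with hz₁
  set α₁ : C := ∏ ω : k' →ₐ[k] C, lft ω α with hα₁
  have ha0 : a (Fin.last d) ≠ 0 := h.lead
  have hfixa : ∀ (σ : C ≃ₐ[k] C) i, σ (a i) = a i := by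
    intro σ i
    obtain ⟨c, hc⟩ := hcoef i
    rw [← hc, AlgEquiv.commutes]
  have hrne : ∀ σ i j, i ≠ j → r σ i ≠ r σ j := fun σ i j hij => (r_inj h hr σ).ne hij
  have hee0 : ∀ (ω : k' →ₐ[k] C) i j, i ≠ j → ee z r ω i j ≠ 0 := by
    intro ω i j hij h0
    unfold ee at h0
    rw [map_eq_zero_iff _ (lft ω).injective] at h0
    exact h.ne _ _ (hrne _ i j hij) h0
  have hact : ∀ (σ : C ≃ₐ[k] C) i j, i ≠ j →
      σ (z₁ i j) = (∏ ω : k' →ₐ[k] C, Z σ ω i j) * z₁ (r σ i) (r σ j) := by
    intro σ i j hij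
    simp only [hz₁]
    rw [map_prod, prod_congr rfl fun ω _ => hZact σ ω i j hij, prod_mul_distrib]
    congr 1
    exact Equiv.prod_comp (permOf k' σ) fun ω => ee z r ω (r σ i) (r σ j)
  have hnrm : ∀ (σ : C ≃ₐ[k] C) i,
      σ α₁ * ∏ j ∈ univ.erase i, ∏ ω : k' →ₐ[k] C, Z σ ω j i = α₁ := by
    intro σ i
    rw [hα₁, map_prod, Finset.prod_comm, ← prod_mul_distrib,
      prod_congr rfl fun ω _ => hZnrm σ ω i]
    exact Equiv.prod_comp (permOf k' σ) fun ω => lft ω α
  have hal0 : a (Fin.last d) ^ l ≠ 0 := pow_ne_zero _ ha0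
  have hal1 : a (Fin.last d) ^ (ν - 1) ≠ 0 := pow_ne_zero _ ha0
  refine ⟨z₁, α₁ / a (Fin.last d) ^ l,
    lev_of_equi (fun i => ?_) (mul_ne_zero hal1 ha0) h.inj (fun i => ?_) ?_ ?_ ?_ hp ?_, ?_⟩
  · exact Subfield.mul_mem _ (Subfield.pow_mem _ (hcoef _) _) (hcoef i)
  · have h1 : ∑ l', a (Fin.last d) ^ (ν - 1) * a l' * θ i ^ (l' : ℕ) =
        a (Fin.last d) ^ (ν - 1) * ∑ l', a l' * θ i ^ (l' : ℕ) := by
      rw [Finset.mul_sum]
      exact Finset.sum_congr rfl fun l' _ => by ring
    rw [h1, h.root i, mul_zero]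
  · intro i j hij
    exact prod_ne_zero_iff.mpr fun ω _ => hee0 ω i j hij
  · intro i j _
    obtain ⟨q, hq0, hq⟩ := Algebra.IsAlgebraic.isAlgebraic (R := k) (z₁ i j)
    refine ⟨q.map (algebraMap k C).rangeRestrictField, ?_, ?_⟩
    · rwa [Ne, Polynomial.map_eq_zero]
    · rw [aeval_def, eval₂_map]
      exact hq
  · have h1 : α₁ ^ p = a (Fin.last d) ^ (ν + p * l) := by
      rw [hα₁, ← prod_pow, ← hdeg, ← hcard, ← Finset.card_univ, ← prod_const]
      refine prod_congr rfl fun ω _ => ?_
      rw [← map_pow, h.alpha, hfixa]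
    rw [div_pow, h1, ← pow_mul, mul_comm l p, pow_add, mul_div_assoc,
      div_self (pow_ne_zero _ ha0), mul_one, ← pow_succ, Nat.sub_add_cancel hν]
  · intro τ hτ
    let σ : C ≃ₐ[k] C := AlgEquiv.ofRingEquiv (f := τ) (fun c => hτ _ ⟨c, rfl⟩)
    have hστ : ∀ x, τ x = σ x := fun _ => rfl
    refine ⟨r σ, fun i j => ∏ ω : k' →ₐ[k] C, Z σ ω i j, ?_, ?_, ?_, ?_, ?_⟩
    · intro i
      exact hr σ i
    · intro i j hij
      rw [← prod_pow, prod_congr rfl fun ω _ => hZpow σ ω i j hij, prod_const_one]
    · intro i j hij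
      rw [hστ, hact σ i j hij]
    · intro i j l h1 h2 h3
      rw [← prod_mul_distrib]
      exact prod_congr rfl fun ω _ => hZcoc σ ω i j l h1 h2 h3
    · intro i
      rw [hστ, map_div₀, map_pow, hfixa, div_mul_eq_mul_div, hnrm σ i]
  · intro V hθ hsep hpV hin τ hτ i j hij
    let σ : C ≃ₐ[k] C := AlgEquiv.ofRingEquiv (f := τ) (fun c => hτ.fix _ ⟨c, rfl⟩)
    have hστ : ∀ x, τ x = σ x := fun _ => rfl
    have hri : ∀ i, r σ i = i := by
      intro i
      by_contra hne
      have h1 := hτ.res (θ i) (hθ i)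
      rw [hστ, hr, hsep _ _ hne] at h1
      exact lt_irrefl _ h1
    have hμ : ∀ ζ : C, ζ ^ p = 1 → σ ζ = ζ := fun ζ hζ =>
      BT.mu_fixed hp hpV (Nat.cast_ne_zero.2 hp) (σ := τ) hτ.res hζ
    have hprod : ∏ ω : k' →ₐ[k] C, Z σ ω i j = 1 := by
      refine prod_eq_one_of_orbit (permOf k' σ) (fun ω => Z σ ω i j) ?_ ?_
      · intro ω h0
        have h1 := hZpow σ ω i j hij
        rw [h0, zero_pow hp] at h1
        exact zero_ne_one h1
      · intro ω m hm hω
        have hstep : ∀ l : ℕ, (σ ^ l) (ee z r ω i j) =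
            (∏ l' ∈ range l, Z σ ((permOf k' σ ^ l') ω) i j) *
              ee z r ((permOf k' σ ^ l) ω) i j := by
          intro l
          induction l with
          | zero => simp
          | succ l ih =>
            rw [pow_succ', AlgEquiv.mul_apply, ih, map_mul, map_prod,
              prod_congr rfl fun l' _ => hμ _ (hZpow σ _ i j hij), hZact σ _ i j hij, hri, hri,
              prod_range_succ, ← mul_assoc, pow_succ', Equiv.Perm.mul_apply]
        have hωm : permOf k' (σ ^ m) ω = ω := by rw [map_pow]; exact hω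
        have hdecm : ∀ (l : ℕ) x, (σ ^ l) x ∈ V ↔ x ∈ V := by
          intro l
          induction l with
          | zero => intro x; rfl
          | succ l ih =>
            intro x
            rw [pow_succ', AlgEquiv.mul_apply]
            exact (hτ.dec _).trans (ih x)
        have hresm : ∀ (l : ℕ), ∀ x ∈ V, V.valuation ((σ ^ l) x - x) < 1 := by
          intro l
          induction l with
          | zero =>
            intro x _
            rw [pow_zero, AlgEquiv.one_apply, sub_self, map_zero]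
            exact zero_lt_one
          | succ l ih =>
            intro x hx
            rw [pow_succ', AlgEquiv.mul_apply]
            have h1 : σ ((σ ^ l) x) - x = (σ ((σ ^ l) x) - (σ ^ l) x) + ((σ ^ l) x - x) := by ring
            rw [h1]
            exact V.valuation.map_add_lt (hτ.res _ ((hdecm l x).mpr hx)) (ih x hx)
        have hl : ∀ x, lft ω (hh (σ ^ m) ω x) = (σ ^ m) (lft ω x) := by
          intro x
          rw [lft_hh, hωm]
        have hI : Inert (algebraMap k' C).fieldRange (V.comap ((lft ω : C ≃ₐ[k] C) : C →+* C))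
            ((hh (σ ^ m) ω : C ≃ₐ[k] C) : C ≃+* C) := by
          refine ⟨fun x hx => hh_fix _ _ hx, fun x => ?_, fun x hx => ?_⟩
          · change lft ω (hh (σ ^ m) ω x) ∈ V ↔ lft ω x ∈ V
            rw [hl, hdecm]
          · rw [comap_val_lt]
            change V.valuation (lft ω (hh (σ ^ m) ω x - x)) < 1
            rw [map_sub, hl]
            exact hresm m _ hx
        have h1 : (σ ^ m) (ee z r ω i j) = ee z r ω i j := by
          unfold ee
          rw [lft_hh, hωm]
          have h2 := hin (lft ω) _ hI (r (lft ω)⁻¹ i) (r (lft ω)⁻¹ j) (hrne _ i j hij)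
          have h3 : hh (σ ^ m) ω (z (r (lft ω)⁻¹ i) (r (lft ω)⁻¹ j)) =
            z (r (lft ω)⁻¹ i) (r (lft ω)⁻¹ j) := h2
          rw [h3]
        have h2 := hstep m
        rw [h1, hω] at h2
        exact mul_right_cancel₀ (hee0 ω i j hij) (h2.symm.trans (one_mul _).symm)
    rw [hστ, hact σ i j hij, hprod, one_mul, hri, hri]

end

section

variable {k₁ k : Type u} [Field k₁] [CharZero k₁] [Field k] [Algebra k₁ k]

/-- **Level one structures attached to sections over extensions of a given degree.** -/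
theorem exists_lev (hF₁ : ∃ S : Finset k₁, Subfield.closure (S : Set k₁) = ⊤)
    (t : k) (hfin : FiniteDimensional (IntermediateField.adjoin k₁ {t}) k)
    {p ν d : ℕ} (hp : 2 ≤ p) (hν : 1 ≤ ν) (hdvd : p ∣ d) (hd : 3 ≤ d) {f : k[X]}
    (hf : f.Separable) (hfd : f.natDegree = d) (h : SectionD p ν f)
    (C : Type u) [Field C] [Algebra k C] [IsAlgClosure k C] :
    ∃ (θ : Fin d → C) (z : Fin d → Fin d → C) (α : C),
      Lev (algebraMap k C).fieldRange p
        (fun i : Fin (d + 1) => algebraMap k C (f.coeff d) ^ (ν - 1) * algebraMap k C (f.coeff i))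
        θ z α ∧
      ∀ V : ValuationSubring C, V ≠ ⊤ → (∀ c : k₁, algebraMap k C (algebraMap k₁ k c) ∈ V) →
        GoodAt V (fun i : Fin (d + 1) => algebraMap k C (f.coeff i)) θ →
        ∀ σ : C ≃+* C, Inert (algebraMap k C).fieldRange V σ →
          ∀ i j, i ≠ j → σ (z i j) = z i j := by
  classical
  obtain ⟨k', _, _, hfin', hdeg, K₀, _, _, x₀, y₀, hx₀, hxy₀, ⟨s₀⟩⟩ := h
  have hk0 : CharZero k := charZero_of_injective_algebraMap (algebraMap k₁ k).injective
  have hC1 : IsAlgClosed C := IsAlgClosure.isAlgClosed k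
  have hC2 : Algebra.IsAlgebraic k C := IsAlgClosure.isAlgebraic
  have hC3 : CharZero C := charZero_of_injective_algebraMap (algebraMap k C).injective
  have hk' : CharZero k' := charZero_of_injective_algebraMap (algebraMap k k').injective
  have hp0 : p ≠ 0 := by omega
  let ι : k' →ₐ[k] C := IsAlgClosed.lift
  let _ : Algebra k' C := ι.toRingHom.toAlgebra
  have hst : IsScalarTower k k' C := IsScalarTower.of_algebraMap_eq fun x => (ι.commutes x).symm
  have halg : Algebra.IsAlgebraic k' C := Algebra.IsAlgebraic.tower_top (K := k) k'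
  have hcl : IsAlgClosure k' C := ⟨hC1, halg⟩
  -- reduction to `K = k'(x, y)`
  let K : IntermediateField k' K₀ := IntermediateField.adjoin k' {x₀, y₀}
  let x : K := ⟨x₀, IntermediateField.subset_adjoin k' _ (by simp)⟩
  let y : K := ⟨y₀, IntermediateField.subset_adjoin k' _ (by simp)⟩
  obtain ⟨s⟩ : Nonempty (GaloisSection k' K) := Pool.Agent.TW.push (K₁ := K) s₀
  have hx : Transcendental k' x := by
    intro h
    exact hx₀ (IsAlgebraic.algebraMap (A := K₀) h)
  have hxy : y ^ p = aeval x (f.map (algebraMap k k')) := by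
    apply Subtype.ext
    have h1 : ((aeval x (f.map (algebraMap k k')) : K) : K₀) =
        aeval x₀ (f.map (algebraMap k k')) := by
      have h2 := aeval_algHom_apply K.val x (f.map (algebraMap k k'))
      exact h2.symm
    rw [h1, ← hxy₀]
    rfl
  have hgen : IntermediateField.adjoin k' {x, y} = ⊤ := by
    apply IntermediateField.map_injective K.val
    rw [IntermediateField.adjoin_map, Set.image_pair, ← AlgHom.fieldRange_eq_map,
      IntermediateField.fieldRange_val]
    rfl
  let i0 : Algebra k₁ k' := ((algebraMap k k').comp (algebraMap k₁ k)).toAlgebra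
  have i0' : IsScalarTower k₁ k k' := IsScalarTower.of_algebraMap_eq fun _ => rfl
  let i1 : Algebra k₁ K := ((algebraMap k' K).comp (algebraMap k₁ k')).toAlgebra
  have i2 : IsScalarTower k₁ k' K := IsScalarTower.of_algebraMap_eq fun _ => rfl
  obtain ⟨θ, z, α, hinj, hroot, hz0, hα, hequi, hiner⟩ := exists_kbar (k₁ := k₁) hF₁
    (algebraMap k k' t) (PL.fin_ext hfin) hp hdvd hd (f := f.map (algebraMap k k')) hf.map
    (by rw [natDegree_map, hfd]) hx hxy hgen s
  have hK1 : IsAlgClosure k' (kbar k' K) := ⟨inferInstance, inferInstance⟩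
  let e : kbar k' K ≃ₐ[k'] C := IsAlgClosure.equiv k' (kbar k' K) C
  have hlc : (f.map (algebraMap k k')).leadingCoeff = algebraMap k k' (f.coeff d) := by
    rw [leadingCoeff_map, leadingCoeff, hfd]
  have hlc0 : f.coeff d ≠ 0 := by
    rw [← hfd]
    exact leadingCoeff_ne_zero.2 hf.ne_zero
  have hco : ∀ i : ℕ, algebraMap k' C ((f.map (algebraMap k k')).coeff i) =
      algebraMap k C (f.coeff i) := by
    intro i
    rw [coeff_map, ← IsScalarTower.algebraMap_apply]
  -- the automorphisms of `C` over `k'`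
  have haut : ∀ τ : C ≃+* C, (∀ y ∈ (algebraMap k' C).fieldRange, τ y = y) →
      ∃ σ : Gk k' K, ∀ w, e (σ w) = τ (e w) := by
    intro τ hτ
    let τ' : C ≃ₐ[k'] C := AlgEquiv.ofRingEquiv (f := τ) (fun c => hτ _ ⟨c, rfl⟩)
    refine ⟨(e.trans τ').trans e.symm, fun w => ?_⟩
    change e (e.symm (τ' (e w))) = _
    rw [AlgEquiv.apply_symm_apply]
    rfl
  -- the level one structure over `k'`
  have hlev : Lev (algebraMap k' C).fieldRange p
      (fun i : Fin (d + 1) => algebraMap k C (f.coeff i)) (fun i => e (θ i))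
      (fun i j => e (z i j)) (e α) := by
    refine lev_of_equi (fun i => ⟨_, hco i⟩) ?_ (e.injective.comp hinj) ?_ ?_ ?_ ?_ hp0 ?_
    · rw [Fin.val_last]
      exact (_root_.map_ne_zero _).2 hlc0
    · intro i
      have h1 : aeval (e (θ i)) (f.map (algebraMap k k')) = 0 := by
        have h2 := aeval_algHom_apply (e : kbar k' K →ₐ[k'] C) (θ i) (f.map (algebraMap k k'))
        rw [hroot i, map_zero] at h2
        exact h2
      rw [← h1, aeval_eq_sum_range, natDegree_map, hfd, ← Fin.sum_univ_eq_sum_range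
        (fun l => (f.map (algebraMap k k')).coeff l • (e (θ i)) ^ l) (d + 1)]
      apply Finset.sum_congr rfl
      intro l _
      rw [Algebra.smul_def, hco]
    · intro i j _ h0
      exact hz0 i j ((map_eq_zero e).1 h0)
    · intro i j _
      have h1 : IsAlgebraic k' (e (z i j)) := Algebra.IsAlgebraic.isAlgebraic _
      obtain ⟨q, hq0, hq⟩ := h1
      refine ⟨q.map (algebraMap k' C).rangeRestrictField, ?_, ?_⟩
      · rwa [Ne, Polynomial.map_eq_zero]
      · rw [aeval_def, eval₂_map]
        exact hq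
    · rw [← map_pow, hα, AlgEquiv.commutes, Fin.val_last, hlc, ← IsScalarTower.algebraMap_apply]
    · intro τ hτ
      obtain ⟨σ, hσ⟩ := haut τ hτ
      obtain ⟨ρ, ζ, h1, h2, h3, h4, h5⟩ := hequi σ
      refine ⟨ρ, fun i j => e (ζ i j), ?_, ?_, ?_, ?_, ?_⟩
      · intro i
        change τ (e (θ i)) = e (θ (ρ i))
        rw [← hσ, h1]
      · intro i j _
        rw [← map_pow, h2, map_one]
      · intro i j _
        change τ (e (z i j)) = e (ζ i j) * e (z (ρ i) (ρ j))
        rw [← hσ, h3, map_mul]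
      · intro i j l _ _ _
        rw [← map_mul, h4]
      · intro i
        rw [← hσ, ← map_prod, ← map_mul, h5]
  obtain ⟨z', α', hlev', hin'⟩ := lev_descend (k := k) (k' := k') hp0 hν
    (by rw [← hdeg]; exact (Nat.mod_add_div _ p).symm) (fun i => ⟨_, rfl⟩) hlev
  refine ⟨fun i => e (θ i), z', α', hlev', fun V hV hk₁ hgood => ?_⟩
  have hpinv : (p : C)⁻¹ ∈ V := by
    have h1 := hk₁ ((p : k₁)⁻¹)
    rwa [map_inv₀, map_inv₀, map_natCast, map_natCast] at h1
  refine hin' V hgood.root hgood.sep hpinv fun τ σ hσ i j _ => ?_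
  set V' : ValuationSubring C := V.comap (τ : C →+* C) with hV'
  have hcoefτ : ∀ c : k, τ (algebraMap k C c) = algebraMap k C c := fun c => τ.commutes _
  -- the automorphism permutes the roots
  have hperm : ∀ i, ∃ j, τ (e (θ i)) = e (θ j) := by
    intro i
    apply root_cases hlev.lead hlev.inj hlev.root
    have h2 := congrArg τ (hlev.root i)
    rw [map_sum, map_zero] at h2
    rw [← h2]
    apply Finset.sum_congr rfl
    intro l _
    rw [map_mul, map_pow, hcoefτ]
  have hval1 : ∀ w : C, V'.valuation w = 1 ↔ V.valuation (τ w) = 1 := fun w =>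
    comap_eq_one (τ : C →+* C) V w
  -- the valuation ring of `kbar`
  set W : ValuationSubring (kbar k' K) := V'.comap (e : kbar k' K →+* C) with hW
  have hmem : ∀ w : kbar k' K, w ∈ W ↔ τ (e w) ∈ V := fun w => Iff.rfl
  have hlt : ∀ w : kbar k' K, W.valuation w < 1 ↔ V.valuation (τ (e w)) < 1 := fun w =>
    (comap_val_lt (e : kbar k' K →+* C)).trans (comap_val_lt (τ : C →+* C))
  have heq1 : ∀ w : kbar k' K, W.valuation w = 1 ↔ V.valuation (τ (e w)) = 1 := fun w =>
    (comap_eq_one (e : kbar k' K →+* C) V' w).trans (hval1 (e w))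
  obtain ⟨σ', hσ'⟩ := haut σ hσ.fix
  have h1 : σ' (z i j) = z i j := by
    refine hiner W ?_ ?_ ?_ ?_ ?_ ?_ σ' ⟨?_, ?_⟩ i j
    · intro htop
      apply hV
      rw [eq_top_iff]
      intro w _
      have h2 : e.symm (τ.symm w) ∈ W := by rw [htop]; trivial
      rw [hmem, AlgEquiv.apply_symm_apply, AlgEquiv.apply_symm_apply] at h2
      exact h2
    · intro c
      rw [hmem]
      have h2 : e (algebraMap k₁ (kbar k' K) c) = algebraMap k C (algebraMap k₁ k c) := by
        have h3 : algebraMap k₁ (kbar k' K) c =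
            algebraMap k' (kbar k' K) (algebraMap k k' (algebraMap k₁ k c)) := rfl
        rw [h3, AlgEquiv.commutes, ← IsScalarTower.algebraMap_apply]
      rw [h2, hcoefτ]
      exact hk₁ c
    · intro i
      rw [hmem, AlgEquiv.commutes, hco, hcoefτ]
      by_cases hi : i ≤ d
      · exact hgood.coef ⟨i, Nat.lt_succ_of_le hi⟩
      · rw [coeff_eq_zero_of_natDegree_lt (by omega), map_zero]
        exact zero_mem _
    · rw [heq1, AlgEquiv.commutes, hlc, ← IsScalarTower.algebraMap_apply, hcoefτ]
      exact hgood.lead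
    · intro i
      obtain ⟨j, hj⟩ := hperm i
      rw [hmem, hj]
      exact hgood.root j
    · intro i j hij
      obtain ⟨i', hi'⟩ := hperm i
      obtain ⟨j', hj'⟩ := hperm j
      rw [heq1, map_sub, map_sub, hi', hj']
      apply hgood.sep
      rintro rfl
      exact hij (hlev.inj (τ.injective (hi'.trans hj'.symm)))
    · intro w
      have h2 := hσ.dec (e w)
      rw [← hσ'] at h2
      exact h2
    · intro w hw
      have h2 := hσ.res (e w) hw
      rw [ValuationSubring.mem_nonunits_iff, hlt, map_sub, hσ']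
      rw [comap_val_lt] at h2
      exact h2
  rw [← hσ', h1]

end

end Pool.Agent.SLS
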